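import Pool.Agent.H504R3.Bridge

set_option autoImplicit false

/-! Formulas are bounded and uniformly continuous on balls, uniformly over all tracial von Neumann
algebras. -/

namespace Pool.Agent.R970.SI

open Pool.Agent.H504R3 (TVN)
open Pool.Agent.H504R3.S
open Pool.Agent.Helper278

section norms

variable (T : TVN)

lemma op_nonneg (x : T.E) : 0 ≤ T.opNorm x := norm_nonneg _

lemma op_add (x y : T.E) : T.opNorm (x + y) ≤ T.opNorm x + T.opNorm y := 
  norm_add_le (x : T.H →L[ℂ] T.H) (y : T.H →L[ℂ] T.H)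

lemma op_mul (x y : T.E) : T.opNorm (x * y) ≤ T.opNorm x * T.opNorm y := 
  norm_mul_le (x : T.H →L[ℂ] T.H) (y : T.H →L[ℂ] T.H)

lemma op_star (x : T.E) : T.opNorm (star x) = T.opNorm x := 
  norm_star (x : T.H →L[ℂ] T.H)

lemma op_smul (c : ℂ) (x : T.E) : T.opNorm (c • x) = ‖c‖ * T.opNorm x := 
  norm_smul c (x : T.H →L[ℂ] T.H)

lemma op_zero : T.opNorm 0 = 0 := norm_zero (E := T.H →L[ℂ] T.H)

lemma op_one : T.opNorm 1 ≤ 1 := ContinuousLinearMap.norm_id_le (𝕜 := ℂ) (E := T.H)

lemma norm2_nonneg (x : T.E) : 0 ≤ T.norm2 x := Real.sqrt_nonneg _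

lemma norm2_add (x y : T.E) : T.norm2 (x + y) ≤ T.norm2 x + T.norm2 y := T.trAlg.n2_add_le x y

lemma norm2_star (x : T.E) : T.norm2 (star x) = T.norm2 x := T.trAlg.n2_star x

lemma norm2_smul (c : ℂ) (x : T.E) : T.norm2 (c • x) = ‖c‖ * T.norm2 x := 
  Pool.Agent.H504R3.n2_smul T.trAlg c x

lemma norm2_mul_left (x y : T.E) : T.norm2 (x * y) ≤ T.opNorm x * T.norm2 y := (T.n2_mul_le x y).1

lemma norm2_mul_right (x y : T.E) : T.norm2 (x * y) ≤ T.norm2 x * T.opNorm y := (T.n2_mul_le y x).2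

lemma norm2_one : T.norm2 1 = 1 := T.trAlg.n2_one

lemma norm2_le_op (x : T.E) : T.norm2 x ≤ T.opNorm x := by
  have h := norm2_mul_left T x 1
  rwa [mul_one, norm2_one, mul_one] at h

lemma tau_le (x : T.E) : ‖T.τ x‖ ≤ T.norm2 x := T.trAlg.norm_le x

lemma norm2_zero : T.norm2 0 = 0 := T.trAlg.n2_zero

lemma norm2_self (w : T.E) : T.norm2 (w - w) = 0 := by rw [sub_self, norm2_zero]

lemma norm2_sub_comm (x y : T.E) : T.norm2 (x - y) = T.norm2 (y - x) := T.trAlg.n2_sub_comm x y

lemma norm2_tri (x y z : T.E) : T.norm2 (x - z) ≤ T.norm2 (x - y) + T.norm2 (y - z) := 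
  T.trAlg.n2_tri x y z

lemma abs_norm2_sub (x y : T.E) : |T.norm2 x - T.norm2 y| ≤ T.norm2 (x - y) := by
  rw [abs_le]
  have h1 := norm2_add T (x - y) y
  have h2 := norm2_add T (y - x) x
  rw [sub_add_cancel] at h1 h2
  rw [norm2_sub_comm T y x] at h2
  constructor <;> linarith

end norms

lemma term_bound {V : Type} (t : Tm V) {R : ℝ} (hR : 0 ≤ R) : ∃ C : ℝ, 0 ≤ C ∧ ∀ (T : TVN) (x : V → T.E), 
    (∀ v, T.opNorm (x v) ≤ R) → T.opNorm (tval T x t) ≤ C := by
  induction t with
  | var v => exact ⟨R, hR, fun T x hx => hx v⟩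
  | one => exact ⟨1, zero_le_one, fun T x hx => op_one T⟩
  | add s t hs ht =>
    obtain ⟨C, hC, h1⟩ := hs
    obtain ⟨D, hD, h2⟩ := ht
    exact ⟨C + D, by positivity, fun T x hx => (op_add T _ _).trans (add_le_add (h1 T x hx) (h2 T x hx))⟩
  | mul s t hs ht =>
    obtain ⟨C, hC, h1⟩ := hs
    obtain ⟨D, hD, h2⟩ := ht
    exact ⟨C * D, by positivity, fun T x hx => (op_mul T _ _).trans 
      (mul_le_mul (h1 T x hx) (h2 T x hx) (op_nonneg T _) hC)⟩
  | adj s hs =>
    obtain ⟨C, hC, h1⟩ := hs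
    exact ⟨C, hC, fun T x hx => (op_star T _).le.trans (h1 T x hx)⟩
  | scal c s hs =>
    obtain ⟨C, hC, h1⟩ := hs
    exact ⟨‖c‖ * C, by positivity, fun T x hx => (op_smul T _ _).le.trans 
      (mul_le_mul_of_nonneg_left (h1 T x hx) (norm_nonneg c))⟩

lemma term_lip {V : Type} (t : Tm V) {R : ℝ} (hR : 0 ≤ R) : ∃ L : ℝ, 0 ≤ L ∧ ∀ (T : TVN) (x y : V → T.E) (η : ℝ), 
    0 ≤ η → (∀ v, T.opNorm (x v) ≤ R) → (∀ v, T.opNorm (y v) ≤ R) → (∀ v, T.norm2 (x v - y v) ≤ η) → 
    T.norm2 (tval T x t - tval T y t) ≤ L * η := by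
  induction t with
  | var v => exact ⟨1, zero_le_one, fun T x y η _ _ _ h => by rw [one_mul]; exact h v⟩
  | one => 
    refine ⟨0, le_rfl, fun T x y η _ _ _ h => ?_⟩
    have : tval T x (Tm.one : Tm V) - tval T y (Tm.one : Tm V) = 0 := sub_self (1 : T.E)
    rw [this, norm2_zero, zero_mul]
  | add s t hs ht =>
    obtain ⟨C, hC, h1⟩ := hs
    obtain ⟨D, hD, h2⟩ := ht
    refine ⟨C + D, by positivity, fun T x y η h0 hx hy h => ?_⟩
    have e : tval T x (s.add t) - tval T y (s.add t) = 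
        (tval T x s - tval T y s) + (tval T x t - tval T y t) := by
      show (tval T x s + tval T x t) - (tval T y s + tval T y t) = _
      abel
    rw [e, add_mul]
    exact (norm2_add T _ _).trans (add_le_add (h1 T x y η h0 hx hy h) (h2 T x y η h0 hx hy h))
  | mul s t hs ht =>
    obtain ⟨C, hC, h1⟩ := hs
    obtain ⟨D, hD, h2⟩ := ht
    obtain ⟨C', hC', h1'⟩ := term_bound s hR
    obtain ⟨D', hD', h2'⟩ := term_bound t hR
    refine ⟨C' * D + C * D', by positivity, fun T x y η h0 hx hy h => ?_⟩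
    have e : tval T x (s.mul t) - tval T y (s.mul t) = 
        tval T x s * (tval T x t - tval T y t) + (tval T x s - tval T y s) * tval T y t := by
      show (tval T x s * tval T x t) - (tval T y s * tval T y t) = _
      rw [mul_sub, sub_mul]
      abel
    rw [e, add_mul]
    refine (norm2_add T _ _).trans (add_le_add ?_ ?_)
    · refine (norm2_mul_left T _ _).trans ?_
      rw [mul_assoc]
      exact mul_le_mul (h1' T x hx) (h2 T x y η h0 hx hy h) (norm2_nonneg T _) hC'
    · refine (norm2_mul_right T _ _).trans ?_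
      rw [mul_right_comm]
      exact mul_le_mul (h1 T x y η h0 hx hy h) (h2' T y hy) (op_nonneg T _) (by positivity)
  | adj s hs =>
    obtain ⟨C, hC, h1⟩ := hs
    refine ⟨C, hC, fun T x y η h0 hx hy h => ?_⟩
    have e : tval T x (s.adj) - tval T y (s.adj) = star (tval T x s - tval T y s) := by
      rw [star_sub]; rfl
    rw [e, norm2_star]
    exact h1 T x y η h0 hx hy h
  | scal c s hs =>
    obtain ⟨C, hC, h1⟩ := hs
    refine ⟨‖c‖ * C, by positivity, fun T x y η h0 hx hy h => ?_⟩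
    have e : tval T x (s.scal c) - tval T y (s.scal c) = c • (tval T x s - tval T y s) := by
      rw [smul_sub]; rfl
    rw [e, norm2_smul, mul_assoc]
    exact mul_le_mul_of_nonneg_left (h1 T x y η h0 hx hy h) (norm_nonneg c)

/-- bounded on balls -/
def Bd {n : ℕ} (φ : Fm n) : Prop := ∀ R : ℝ, 0 ≤ R → ∃ C : ℝ, ∀ (T : TVN) (x : Fin n → T.E), 
  (∀ i, T.opNorm (x i) ≤ R) → |φ.val (str T) x| ≤ C

/-- uniformly continuous on balls -/
def Uc {n : ℕ} (φ : Fm n) : Prop := ∀ R : ℝ, 0 ≤ R → ∀ ε : ℝ, 0 < ε → ∃ δ : ℝ, 0 < δ ∧ 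
  ∀ (T : TVN) (x y : Fin n → T.E), (∀ i, T.opNorm (x i) ≤ R) → (∀ i, T.opNorm (y i) ≤ R) → 
  (∀ i, T.norm2 (x i - y i) ≤ δ) → |φ.val (str T) x - φ.val (str T) y| ≤ ε

instance ball_nonempty (T : TVN) (r : ℕ) : Nonempty ((str T).Ball r) := 
  ⟨⟨(0 : T.E), by show T.opNorm 0 ≤ r; rw [op_zero]; positivity⟩⟩

lemma cons_op {T : TVN} {n : ℕ} {R : ℝ} {r : ℕ} {x : Fin n → T.E} (hx : ∀ i, T.opNorm (x i) ≤ R) 
    (y : (str T).Ball r) (i : Fin (n + 1)) : 
    T.opNorm ((Fin.cons (α := fun _ => T.E) y.1 x : Fin (n + 1) → T.E) i) ≤ max R r := by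
  refine Fin.cases ?_ (fun i => ?_) i
  · exact (show T.opNorm (y.1 : T.E) ≤ r from y.2).trans (le_max_right _ _)
  · exact (hx i).trans (le_max_left _ _)

/-- Formulas are bounded and uniformly continuous on balls. -/
theorem good {n : ℕ} (φ : Fm n) : Bd φ ∧ Uc φ := by
  induction φ with
  | re t =>
    constructor
    · intro R hR
      obtain ⟨C, hC, h⟩ := term_bound t hR
      refine ⟨C, fun T x hx => ?_⟩
      exact (Complex.abs_re_le_norm _).trans ((tau_le T _).trans ((norm2_le_op T _).trans (h T x hx)))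
    · intro R hR ε hε
      obtain ⟨L, hL, h⟩ := term_lip t hR
      refine ⟨ε / (L + 1), by positivity, fun T x y hx hy hxy => ?_⟩
      have h1 := h T x y _ (by positivity) hx hy hxy
      have e : (Fm.re t).val (str T) x - (Fm.re t).val (str T) y = (T.τ (tval T x t - tval T y t)).re := by
        rw [map_sub]; rfl
      rw [e]
      refine (Complex.abs_re_le_norm _).trans ((tau_le T _).trans (h1.trans ?_))
      rw [mul_div_assoc', div_le_iff₀ (by positivity)]
      nlinarith
  | im t =>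
    constructor
    · intro R hR
      obtain ⟨C, hC, h⟩ := term_bound t hR
      refine ⟨C, fun T x hx => ?_⟩
      exact (Complex.abs_im_le_norm _).trans ((tau_le T _).trans ((norm2_le_op T _).trans (h T x hx)))
    · intro R hR ε hε
      obtain ⟨L, hL, h⟩ := term_lip t hR
      refine ⟨ε / (L + 1), by positivity, fun T x y hx hy hxy => ?_⟩
      have h1 := h T x y _ (by positivity) hx hy hxy
      have e : (Fm.im t).val (str T) x - (Fm.im t).val (str T) y = (T.τ (tval T x t - tval T y t)).im := by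
        rw [map_sub]; rfl
      rw [e]
      refine (Complex.abs_im_le_norm _).trans ((tau_le T _).trans (h1.trans ?_))
      rw [mul_div_assoc', div_le_iff₀ (by positivity)]
      nlinarith
  | nrm t =>
    constructor
    · intro R hR
      obtain ⟨C, hC, h⟩ := term_bound t hR
      refine ⟨C, fun T x hx => ?_⟩
      show |T.norm2 (tval T x t)| ≤ C
      rw [abs_of_nonneg (norm2_nonneg T _)]
      exact (norm2_le_op T _).trans (h T x hx)
    · intro R hR ε hε
      obtain ⟨L, hL, h⟩ := term_lip t hR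
      refine ⟨ε / (L + 1), by positivity, fun T x y hx hy hxy => ?_⟩
      have h1 := h T x y _ (by positivity) hx hy hxy
      refine (abs_norm2_sub T (tval T x t) (tval T y t)).trans (h1.trans ?_)
      rw [mul_div_assoc', div_le_iff₀ (by positivity)]
      nlinarith
  | @conn n k u φ ih =>
    constructor
    · intro R hR
      choose C hC using fun i => (ih i).1 R hR
      have hcomp : IsCompact (Set.pi Set.univ fun i : Fin k => Set.Icc (-(C i)) (C i)) := 
        isCompact_univ_pi fun i => isCompact_Icc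
      obtain ⟨D, hD⟩ := hcomp.exists_bound_of_continuousOn (f := u) u.continuous.continuousOn
      refine ⟨D, fun T x hx => ?_⟩
      exact hD _ (fun i _ => abs_le.1 (hC i T x hx))
    · intro R hR ε hε
      choose C hC using fun i => (ih i).1 R hR
      have hcomp : IsCompact (Set.pi Set.univ fun i : Fin k => Set.Icc (-(C i)) (C i)) := 
        isCompact_univ_pi fun i => isCompact_Icc
      have huc := hcomp.uniformContinuousOn_of_continuous (f := u) u.continuous.continuousOn
      rw [Metric.uniformContinuousOn_iff_le] at huc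
      obtain ⟨η, hη, huc⟩ := huc ε hε
      choose δ hδ hφ using fun i => (ih i).2 R hR η hη
      rcases Nat.eq_zero_or_pos k with rfl | hk
      · refine ⟨1, one_pos, fun T x y hx hy hxy => ?_⟩
        have e : (fun i => (φ i).val (str T) x) = fun i => (φ i).val (str T) y := Subsingleton.elim _ _
        show |u (fun i => (φ i).val (str T) x) - u (fun i => (φ i).val (str T) y)| ≤ ε
        rw [e, sub_self, abs_zero]
        exact hε.le
      · have : Nonempty (Fin k) := ⟨⟨0, hk⟩⟩
        refine ⟨Finset.univ.inf' Finset.univ_nonempty δ, (Finset.lt_inf'_iff _).2 fun i _ => hδ i, 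
          fun T x y hx hy hxy => ?_⟩
        refine huc _ (fun i _ => abs_le.1 (hC i T x hx)) _ (fun i _ => abs_le.1 (hC i T y hy)) ?_
        rw [dist_pi_le_iff hη.le]
        intro i
        exact hφ i T x y hx hy (fun j => (hxy j).trans (Finset.inf'_le _ (Finset.mem_univ i)))
  | @sup n r φ ih =>
    have hbdd : ∀ R : ℝ, 0 ≤ R → ∃ C : ℝ, ∀ (T : TVN) (x : Fin n → T.E), (∀ i, T.opNorm (x i) ≤ R) → 
        ∀ y : (str T).Ball r, |φ.val (str T) (Fin.cons y.1 x)| ≤ C := by
      intro R hR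
      obtain ⟨C, hC⟩ := ih.1 (max R r) (by positivity)
      exact ⟨C, fun T x hx y => hC T _ (cons_op hx y)⟩
    constructor
    · intro R hR
      obtain ⟨C, hC⟩ := hbdd R hR
      refine ⟨C, fun T x hx => ?_⟩
      rw [abs_le]
      constructor
      · obtain ⟨y⟩ := ball_nonempty T r
        exact (abs_le.1 (hC T x hx y)).1.trans (le_ciSup (f := fun y : (str T).Ball r => 
          φ.val (str T) (Fin.cons y.1 x)) ⟨C, by rintro _ ⟨y, rfl⟩; exact (abs_le.1 (hC T x hx y)).2⟩ y)
      · exact ciSup_le fun y => (abs_le.1 (hC T x hx y)).2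
    · intro R hR ε hε
      obtain ⟨C, hC⟩ := hbdd R hR
      obtain ⟨δ, hδ, h⟩ := ih.2 (max R r) (by positivity) ε hε
      have key : ∀ (T : TVN) (x y : Fin n → T.E), (∀ i, T.opNorm (x i) ≤ R) → 
          (∀ i, T.opNorm (y i) ≤ R) → (∀ i, T.norm2 (x i - y i) ≤ δ) → 
          (Fm.sup r φ).val (str T) x ≤ (Fm.sup r φ).val (str T) y + ε := by
        intro T x y hx hy hxy
        refine ciSup_le fun z => ?_
        have h1 := h T (Fin.cons z.1 x) (Fin.cons z.1 y) (cons_op hx z) (cons_op hy z) (by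
          intro i
          refine Fin.cases ?_ (fun i => ?_) i
          · exact (norm2_self T z.1).le.trans hδ.le
          · exact hxy i)
        have h2 : φ.val (str T) (Fin.cons z.1 x) - φ.val (str T) (Fin.cons z.1 y) ≤ ε := (abs_le.1 h1).2
        have h3 : φ.val (str T) (Fin.cons z.1 y) ≤ (Fm.sup r φ).val (str T) y := 
          le_ciSup (f := fun z : (str T).Ball r => φ.val (str T) (Fin.cons z.1 y)) 
            ⟨C, by rintro _ ⟨z, rfl⟩; exact (abs_le.1 (hC T y hy z)).2⟩ z
        show φ.val (str T) (Fin.cons z.1 x) ≤ (Fm.sup r φ).val (str T) y + ε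
        linarith
      refine ⟨δ, hδ, fun T x y hx hy hxy => ?_⟩
      rw [abs_le]
      have h1 := key T x y hx hy hxy
      have h2 := key T y x hy hx (fun i => by rw [norm2_sub_comm]; exact hxy i)
      constructor <;> linarith
  | @inf n r φ ih =>
    have hbdd : ∀ R : ℝ, 0 ≤ R → ∃ C : ℝ, ∀ (T : TVN) (x : Fin n → T.E), (∀ i, T.opNorm (x i) ≤ R) → 
        ∀ y : (str T).Ball r, |φ.val (str T) (Fin.cons y.1 x)| ≤ C := by
      intro R hR
      obtain ⟨C, hC⟩ := ih.1 (max R r) (by positivity)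
      exact ⟨C, fun T x hx y => hC T _ (cons_op hx y)⟩
    constructor
    · intro R hR
      obtain ⟨C, hC⟩ := hbdd R hR
      refine ⟨C, fun T x hx => ?_⟩
      rw [abs_le]
      constructor
      · exact le_ciInf fun y => (abs_le.1 (hC T x hx y)).1
      · obtain ⟨y⟩ := ball_nonempty T r
        exact (ciInf_le (f := fun y : (str T).Ball r => φ.val (str T) (Fin.cons y.1 x)) 
          ⟨-C, by rintro _ ⟨y, rfl⟩; exact (abs_le.1 (hC T x hx y)).1⟩ y).trans 
          (abs_le.1 (hC T x hx y)).2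
    · intro R hR ε hε
      obtain ⟨C, hC⟩ := hbdd R hR
      obtain ⟨δ, hδ, h⟩ := ih.2 (max R r) (by positivity) ε hε
      have key : ∀ (T : TVN) (x y : Fin n → T.E), (∀ i, T.opNorm (x i) ≤ R) → 
          (∀ i, T.opNorm (y i) ≤ R) → (∀ i, T.norm2 (x i - y i) ≤ δ) → 
          (Fm.inf r φ).val (str T) x - ε ≤ (Fm.inf r φ).val (str T) y := by
        intro T x y hx hy hxy
        refine le_ciInf fun z => ?_
        have h1 := h T (Fin.cons z.1 x) (Fin.cons z.1 y) (cons_op hx z) (cons_op hy z) (by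
          intro i
          refine Fin.cases ?_ (fun i => ?_) i
          · exact (norm2_self T z.1).le.trans hδ.le
          · exact hxy i)
        have h2 : φ.val (str T) (Fin.cons z.1 x) - φ.val (str T) (Fin.cons z.1 y) ≤ ε := (abs_le.1 h1).2
        have h3 : (Fm.inf r φ).val (str T) x ≤ φ.val (str T) (Fin.cons z.1 x) := 
          ciInf_le (f := fun z : (str T).Ball r => φ.val (str T) (Fin.cons z.1 x)) 
            ⟨-C, by rintro _ ⟨z, rfl⟩; exact (abs_le.1 (hC T x hx z)).1⟩ z
        show (Fm.inf r φ).val (str T) x - ε ≤ φ.val (str T) (Fin.cons z.1 y)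
        linarith
      refine ⟨δ, hδ, fun T x y hx hy hxy => ?_⟩
      rw [abs_le]
      have h1 := key T x y hx hy hxy
      have h2 := key T y x hy hx (fun i => by rw [norm2_sub_comm]; exact hxy i)
      constructor <;> linarith

end Pool.Agent.R970.SI
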