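import Pool.Agent.R970.SI.Pauli

set_option autoImplicit false

/-! Flips. -/

namespace Pool.Agent.R970.SI

open Pool.Agent.H504R3 (TVN)
open Pool.Agent.W403.EP
open Pool.Agent.Helper436.SM (sg sg_mul_self sg_add)

/-- the flip of two commuting pairs -/
theorem flip_alg {A : Type} [Ring A] [StarRing A] [Algebra ℂ A] [StarModule ℂ A] {z z' x x' : A}
    (hz : z * z = 1) (hz' : z' * z' = 1) (hx : x * x = 1) (hx' : x' * x' = 1)
    (szs : star z = z) (szs' : star z' = z') (sx : star x = x) (sx' : star x' = x')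
    (hzz : z' * z = z * z') (hxx : x' * x = x * x') (h1 : x * z' = z' * x) (h2 : x' * z = z * x')
    (h3 : x * z = -(z * x)) (h4 : x' * z' = -(z' * x')) : 
    ∃ v : A, star v = v ∧ v * v = 1 ∧ v * z = z' * v ∧ 
      ∀ c : A, c * z = z * c → c * z' = z' * c → c * x = x * c → c * x' = x' * c → c * v = v * c := by
  obtain ⟨a, ha⟩ : ∃ a, a = z * z' := ⟨_, rfl⟩
  obtain ⟨b, hb⟩ : ∃ b, b = x * x' := ⟨_, rfl⟩
  have haa : a * a = 1 := by
    rw [ha]
    calc z * z' * (z * z') = z * (z' * z) * z' := by simp only [mul_assoc]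
      _ = (z * z) * (z' * z') := by rw [hzz]; simp only [mul_assoc]
      _ = 1 := by rw [hz, hz', one_mul]
  have hbb : b * b = 1 := by
    rw [hb]
    calc x * x' * (x * x') = x * (x' * x) * x' := by simp only [mul_assoc]
      _ = (x * x) * (x' * x') := by rw [hxx]; simp only [mul_assoc]
      _ = 1 := by rw [hx, hx', one_mul]
  have hba : b * a = a * b := by
    rw [ha, hb]
    calc x * x' * (z * z') = x * (x' * z) * z' := by simp only [mul_assoc]
      _ = (x * z) * (x' * z') := by rw [h2]; simp only [mul_assoc]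
      _ = (z * x) * (z' * x') := by rw [h3, h4, neg_mul_neg]
      _ = z * (x * z') * x' := by simp only [mul_assoc]
      _ = z * z' * (x * x') := by rw [h1]; simp only [mul_assoc]
  have sa : star a = a := by rw [ha, star_mul, szs, szs', hzz]
  have sb : star b = b := by rw [hb, star_mul, sx, sx', hxx]
  have hbz : b * z = -(z * b) := by
    rw [hb, mul_assoc, h2, ← mul_assoc, h3, neg_mul, mul_assoc]
  have haz : a * z = z' := by rw [ha, mul_assoc, hzz, ← mul_assoc, hz, one_mul]
  have hza : z' * a = z := by rw [ha, ← mul_assoc, hzz, mul_assoc, hz', mul_one]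
  refine ⟨(1 / 2 : ℂ) • (1 + a + b - a * b), ?_, ?_, ?_, ?_⟩
  · rw [star_smul, star_sub, star_add, star_add, star_one, star_mul, sa, sb, hba]
    congr 1
    simp
  · rw [smul_mul_smul_comm]
    have e : (1 + a + b - a * b) * (1 + a + b - a * b) = 1 + 1 + 1 + 1 := by
      have e1 : a * (a * b) = b := by rw [← mul_assoc, haa, one_mul]
      have e2 : b * (a * b) = a := by rw [← mul_assoc, hba, mul_assoc, hbb, mul_one]
      have e3 : (a * b) * a = b := by rw [mul_assoc, hba, e1]
      have e4 : (a * b) * b = a := by rw [mul_assoc, hbb, mul_one]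
      have e5 : (a * b) * (a * b) = 1 := by rw [← mul_assoc, e3, hbb]
      simp only [mul_add, mul_sub, add_mul, sub_mul, one_mul, mul_one, haa, hbb, hba, e1, e2, e3, e4, e5]
      abel
    rw [e]
    module
  · rw [smul_mul_assoc, mul_smul_comm]
    congr 1
    have e1 : (a * b) * z = -(z' * b) := by
      rw [mul_assoc, hbz, mul_neg, ← mul_assoc, haz]
    have e2 : z' * (a * b) = z * b := by rw [← mul_assoc, hza]
    simp only [mul_add, mul_sub, add_mul, sub_mul, one_mul, mul_one, haz, hbz, e1, e2, hza]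
    abel
  · intro c c1 c2 c3 c4
    have ca : c * a = a * c := by
      rw [ha, ← mul_assoc, c1, mul_assoc, c2, mul_assoc]
    have cb : c * b = b * c := by
      rw [hb, ← mul_assoc, c3, mul_assoc, c4, mul_assoc]
    have cab : c * (a * b) = a * b * c := by
      rw [← mul_assoc, ca, mul_assoc, cb, mul_assoc]
    rw [mul_smul_comm, smul_mul_assoc]
    congr 1
    simp only [mul_add, mul_sub, add_mul, sub_mul, one_mul, mul_one, ca, cb, cab]

section

variable {T : TVN} {S : Type} {W : V S → T.E} (P : PS T S W)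

/-- the diagonal unitary at a site -/
noncomputable def Zs (W : V S → T.E) (s : S) : T.E := W (Finsupp.single s (0, 1))
/-- the other unitary at a site -/
noncomputable def Xs (W : V S → T.E) (s : S) : T.E := W (Finsupp.single s (1, 0))

theorem sg_zero' : sg (0 : ZMod 2) = 1 := if_pos rfl
theorem sg_one' : sg (1 : ZMod 2) = -1 := if_neg (by decide)

include P

theorem sq_of (s : S) (c : ZMod 2 × ZMod 2) (hc : c.2 * c.1 = 0) : 
    W (Finsupp.single s c) * W (Finsupp.single s c) = 1 := by
  classical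
  rw [P.mul, v_add_self, P.zero, bfS_single, if_pos rfl, hc, sg_zero', one_smul]

theorem star_of (s : S) (c : ZMod 2 × ZMod 2) (hc : c.2 * c.1 = 0) : 
    star (W (Finsupp.single s c)) = W (Finsupp.single s c) := by
  classical
  rw [P.adj, bfS_single, if_pos rfl, hc, sg_zero', one_smul]

theorem comm_of {s t : S} (h : s ≠ t) (c d : ZMod 2 × ZMod 2) : 
    W (Finsupp.single s c) * W (Finsupp.single t d) = W (Finsupp.single t d) * W (Finsupp.single s c) := by
  classical
  rw [P.mul, P.mul, bfS_single, bfS_single, if_neg h, if_neg (Ne.symm h), add_comm]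

theorem anti_of (s : S) : Xs W s * Zs W s = -(Zs W s * Xs W s) := by
  classical
  unfold Xs Zs
  rw [P.mul, P.mul, bfS_single, bfS_single, if_pos rfl, if_pos rfl, add_comm (Finsupp.single s ((1 : ZMod 2), (0 : ZMod 2)))]
  simp only [mul_one, zero_mul, sg_zero', sg_one', one_smul, neg_smul, neg_neg]

theorem exists_flip {s t : S} (h : s ≠ t) : ∃ v : T.E, star v * v = 1 ∧ v * star v = 1 ∧ 
    v * Zs W s = Zs W t * v ∧ ∀ c : T.E, (∀ k ∈ ({s, t} : Set S), c * Zs W k = Zs W k * c ∧ 
      c * Xs W k = Xs W k * c) → c * v = v * c := by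
  obtain ⟨v, h1, h2, h3, h4⟩ := flip_alg (z := Zs W s) (z' := Zs W t) (x := Xs W s) (x' := Xs W t)
    (sq_of P s _ (by simp)) (sq_of P t _ (by simp)) (sq_of P s _ (by simp)) (sq_of P t _ (by simp))
    (star_of P s _ (by simp)) (star_of P t _ (by simp)) (star_of P s _ (by simp)) (star_of P t _ (by simp))
    (comm_of P h.symm _ _) (comm_of P h.symm _ _) (comm_of P h _ _) (comm_of P h.symm _ _)
    (anti_of P s) (anti_of P t)
  refine ⟨v, by rw [h1, h2], by rw [h1, h2], h3, fun c hc => ?_⟩
  have hs := hc s (by simp)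
  have ht := hc t (by simp)
  exact h4 c hs.1 ht.1 hs.2 ht.2

end

/-- the unitaries `u_F` -/
theorem exists_u {T : TVN} {I : Type} {W : V (I × ℕ) → T.E} (P : PS T (I × ℕ) W) (F : Finset I) : 
    ∃ u : T.E, star u * u = 1 ∧ u * star u = 1 ∧ (∀ α ∈ F, u * Zs W (α, 0) = Zs W (α, 1) * u) ∧ 
      ∀ α ∉ F, ∀ c : ℕ, u * Zs W (α, c) = Zs W (α, c) * u ∧ u * Xs W (α, c) = Xs W (α, c) * u := by
  classical
  induction F using Finset.induction_on with
  | empty =>
    refine ⟨1, by simp, by simp, by simp, fun α _ c => ⟨by simp, by simp⟩⟩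
  | insert α F hα ih =>
    obtain ⟨u, h1, h2, h3, h4⟩ := ih
    obtain ⟨v, g1, g2, g3, g4⟩ := exists_flip P (s := (α, 0)) (t := (α, 1)) (by simp)
    have hvc : ∀ β ≠ α, ∀ c : ℕ, v * Zs W (β, c) = Zs W (β, c) * v ∧ v * Xs W (β, c) = Xs W (β, c) * v := by
      intro β hβ c
      have hne : ∀ k ∈ ({(α, 0), (α, 1)} : Set (I × ℕ)), (β, c) ≠ k := by
        rintro k (rfl | rfl) h
        · exact hβ (congrArg Prod.fst h)
        · exact hβ (congrArg Prod.fst h)
      constructor
      · exact (g4 _ (fun k hk => ⟨comm_of P (hne k hk) _ _, comm_of P (hne k hk) _ _⟩)).symm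
      · exact (g4 _ (fun k hk => ⟨comm_of P (hne k hk) _ _, comm_of P (hne k hk) _ _⟩)).symm
    refine ⟨v * u, ?_, ?_, ?_, ?_⟩
    · rw [star_mul]
      calc star u * star v * (v * u) = star u * (star v * v) * u := by simp only [mul_assoc]
        _ = 1 := by rw [g1, mul_one, h1]
    · rw [star_mul]
      calc v * u * (star u * star v) = v * (u * star u) * star v := by simp only [mul_assoc]
        _ = 1 := by rw [h2, mul_one, g2]
    · intro β hβ
      rw [Finset.mem_insert] at hβ
      by_cases hβα : β = α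
      · subst hβα
        rw [mul_assoc, (h4 β hα 0).1, ← mul_assoc, g3, mul_assoc]
      · have hβF : β ∈ F := by tauto
        rw [mul_assoc, h3 β hβF, ← mul_assoc, (hvc β hβα 1).1, mul_assoc]
    · intro β hβ c
      rw [Finset.mem_insert, not_or] at hβ
      constructor
      · rw [mul_assoc, (h4 β hβ.2 c).1, ← mul_assoc, (hvc β hβ.1 c).1, mul_assoc]
      · rw [mul_assoc, (h4 β hβ.2 c).2, ← mul_assoc, (hvc β hβ.1 c).2, mul_assoc]

end Pool.Agent.R970.SI
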