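import Pool.Agent.H504R3.Bridge
import Pool.Agent.W403.EP.TWB

set_option autoImplicit false

/-! The hyperfinite factor exists. -/

namespace Pool.Agent.R970.SI

open Pool.Agent.H504R3 (TVN)
open Pool.Agent.H504R3.S (Str str exists_tvn isTVN homOf hyp_of factor_of sub_eq norm2_eq Tm tval
  val_mem)

theorem isHyp (T : TVN) (h : T.IsHyperfinite) : (str T).IsHyperfinite := by
  obtain ⟨j, hj, hd⟩ := h
  have hmul : ∀ k (a b c d : Fin 2), j k (Matrix.single a b 1) * j k (Matrix.single c d 1) =
      if b = c then j k (Matrix.single a d 1) else 0 := by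
    intro k a b c d
    rw [← map_mul]
    split_ifs with hbc
    · subst hbc
      rw [Matrix.single_mul_single_same, one_mul]
    · rw [Matrix.single_mul_single_of_ne (h := hbc), map_zero]
  have hadj : ∀ k (a b : Fin 2), star (j k (Matrix.single a b 1)) =
      j k (Matrix.single b a 1) := by
    intro k a b
    rw [← map_star, Matrix.star_eq_conjTranspose, Matrix.conjTranspose_single, star_one]
  have hone : ∀ k, j k (Matrix.single 0 0 1) + j k (Matrix.single 1 1 1) = 1 := by
    intro k
    rw [← map_add, ← map_one (j k)]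
    congr 1
    ext a b
    fin_cases a <;> fin_cases b <;> simp [Matrix.single]
  have hz : (str T).zero = (0 : T.E) := zero_smul ℂ (1 : T.E)
  refine ⟨isTVN T, fun k a b => j k (Matrix.single a b 1), fun k => ⟨?_, hadj k, hone k⟩,
    fun k l hkl a b c d => hj k l hkl _ _, fun x ε hε => ?_⟩
  · intro a b c d
    refine (hmul k a b c d).trans ?_
    rw [hz]
    rfl
  · obtain ⟨y, hy, hxy⟩ := hd x ε hε
    set V := fun v : ℕ × Fin 2 × Fin 2 => j v.1 (Matrix.single v.2.1 v.2.2 1) with hV
    have key : ∃ t : Pool.Agent.H504R3.S.Tm (ℕ × Fin 2 × Fin 2), tval T V t = y := by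
      clear hxy
      induction hy using Algebra.adjoin_induction with
      | mem a ha =>
        obtain ⟨k, m, rfl⟩ := Set.mem_iUnion.mp ha
        refine ⟨.add (.add (.scal (m 0 0) (.var (k, 0, 0))) (.scal (m 0 1) (.var (k, 0, 1))))
          (.add (.scal (m 1 0) (.var (k, 1, 0))) (.scal (m 1 1) (.var (k, 1, 1)))), ?_⟩
        show m 0 0 • j k (Matrix.single 0 0 1) + m 0 1 • j k (Matrix.single 0 1 1) +
          (m 1 0 • j k (Matrix.single 1 0 1) + m 1 1 • j k (Matrix.single 1 1 1)) = j k m
        rw [← map_smul, ← map_smul, ← map_smul, ← map_smul, ← map_add, ← map_add, ← map_add]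
        congr 1
        ext a b
        fin_cases a <;> fin_cases b <;> simp [Matrix.single]
      | algebraMap r =>
        refine ⟨.scal r .one, ?_⟩
        rw [Algebra.algebraMap_eq_smul_one]
        rfl
      | add a b _ _ ha hb =>
        obtain ⟨s, hs⟩ := ha
        obtain ⟨t, ht⟩ := hb
        refine ⟨.add s t, ?_⟩
        rw [← hs, ← ht]
        rfl
      | mul a b _ _ ha hb =>
        obtain ⟨s, hs⟩ := ha
        obtain ⟨t, ht⟩ := hb
        refine ⟨.mul s t, ?_⟩
        rw [← hs, ← ht]
        rfl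
    obtain ⟨t, ht⟩ := key
    refine ⟨t, ?_⟩
    refine lt_of_eq_of_lt (congrArg T.norm2 (sub_eq T x (tval T V t))) ?_
    rw [ht]
    exact hxy

theorem exists_hyp : ∃ R : Str, R.IsHyperfinite := 
  ⟨str (Pool.Agent.W403.EP.NN (Multiplicative ℤ)), isHyp _ (Pool.Agent.W403.EP.NN_hyp _)⟩

end Pool.Agent.R970.SI
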