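import Pool.Agent.R970.SI.Pauli

set_option autoImplicit false

/-! Local subalgebras: homomorphisms, norms, density of the local unit ball. -/

namespace Pool.Agent.R970.SI

open Pool.Agent.H504R3 (TVN)
open Pool.Agent.H504R3.S
open Pool.Agent.Helper278 hiding sg
open Pool.Agent.W403.EP
open Pool.Agent.Helper436.SM (sg sg_mul_self sg_add)
open scoped InnerProductSpace ComplexConjugate

section hom

variable {T : TVN} {S : Type} {W : V S → T.E} (P : PS T S W) {ι : Type} [Fintype ι] (e : ι → S)

/-- linear extension of `WS v ↦ W (e_* v)` -/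
noncomputable def lin (W : V S → T.E) (e : ι → S) : (MS ι).E →ₗ[ℂ] T.E := by
  classical
  exact ∑ v : V ι, ((MS ι).τ.comp (LinearMap.mulLeft ℂ (star (WS ι v)))).smulRight 
    (W (v.mapDomain e))

theorem lin_WS (W : V S → T.E) (v : V ι) : lin W e (WS ι v) = W (v.mapDomain e) := by
  classical
  unfold lin
  rw [LinearMap.sum_apply, Finset.sum_eq_single v]
  · show (MS ι).τ (star (WS ι v) * WS ι v) • W (v.mapDomain e) = _
    rw [(ps_model ι).star_mul_self, one_smul]
  · intro w _ hw
    show (MS ι).τ (star (WS ι w) * WS ι v) • W (w.mapDomain e) = _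
    rw [(ps_model ι).star_mul w v hw, zero_smul]
  · intro h
    exact absurd (Finset.mem_univ v) h

theorem ext_WS {M : Type} [AddCommMonoid M] [Module ℂ M] (f g : (MS ι).E →ₗ[ℂ] M) 
    (h : ∀ v, f (WS ι v) = g (WS ι v)) : f = g := by
  apply LinearMap.ext_on (ps_model ι).span_top
  rintro _ ⟨v, rfl⟩
  exact h v

variable (he : Function.Injective e)

include P he

theorem lin_mul (x y : (MS ι).E) : lin W e (x * y) = lin W e x * lin W e y := by
  have h1 : ∀ v w : V ι, lin W e (WS ι v * WS ι w) = lin W e (WS ι v) * lin W e (WS ι w) := by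
    intro v w
    rw [(ps_model ι).mul, map_smul, lin_WS, lin_WS, lin_WS, P.mul, bfS_map he, Finsupp.mapDomain_add]
  have h2 : ∀ v : V ι, ∀ y, lin W e (WS ι v * y) = lin W e (WS ι v) * lin W e y := by
    intro v y
    have := ext_WS ((lin W e).comp (LinearMap.mulLeft ℂ (WS ι v))) 
      ((LinearMap.mulLeft ℂ (lin W e (WS ι v))).comp (lin W e)) (fun w => h1 v w)
    exact congrArg (fun f => f y) this
  have := ext_WS ((lin W e).comp (LinearMap.mulRight ℂ y)) 
      ((LinearMap.mulRight ℂ (lin W e y)).comp (lin W e)) (fun w => h2 w y)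
  exact congrArg (fun f => f x) this

omit he in
theorem lin_one : lin W e 1 = 1 := by
  rw [← (ps_model ι).zero, lin_WS, Finsupp.mapDomain_zero, P.zero]

theorem lin_star (x : (MS ι).E) : lin W e (star x) = star (lin W e x) := by
  classical
  have key : ∀ x ∈ Submodule.span ℂ (Set.range (WS ι)), lin W e (star x) = star (lin W e x) := by
    intro x hx
    induction hx using Submodule.span_induction with
    | mem x hx =>
      obtain ⟨v, rfl⟩ := hx
      rw [(ps_model ι).adj, map_smul, lin_WS, P.adj, bfS_map he]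
    | zero => rw [star_zero, map_zero, star_zero]
    | add a b _ _ ha hb => rw [star_add, map_add, map_add, star_add, ha, hb]
    | smul c a _ ha => rw [star_smul, map_smul, map_smul, star_smul, ha]
  exact key x (by rw [(ps_model ι).span_top]; trivial)

theorem lin_tr (x : (MS ι).E) : T.τ (lin W e x) = (MS ι).τ x := by
  classical
  have := ext_WS (T.τ.comp (lin W e)) (MS ι).τ (fun v => by
    show T.τ (lin W e (WS ι v)) = (MS ι).τ (WS ι v)
    rw [lin_WS]
    by_cases hv : v = 0
    · rw [hv, Finsupp.mapDomain_zero, P.zero, (ps_model ι).zero, T.map_one, (MS ι).map_one]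
    · rw [(ps_model ι).tr v hv, P.tr]
      intro h
      exact hv (Finsupp.mapDomain_injective he (by rw [h, Finsupp.mapDomain_zero])))
  exact congrArg (fun f => f x) this

/-- the local homomorphism -/
noncomputable def rho : (MS ι).E →⋆ₐ[ℂ] T.E where
  toFun := lin W e
  map_one' := lin_one P e
  map_mul' := lin_mul P e he
  map_zero' := map_zero _
  map_add' := map_add _
  commutes' c := by
    rw [Algebra.algebraMap_eq_smul_one, Algebra.algebraMap_eq_smul_one, map_smul, lin_one P e]
  map_star' := lin_star P e he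

theorem rho_WS (v : V ι) : rho P e he (WS ι v) = W (v.mapDomain e) := lin_WS e W v

theorem rho_tr (x : (MS ι).E) : T.τ (rho P e he x) = (MS ι).τ x := lin_tr P e he x

theorem rho_norm2 (x : (MS ι).E) : T.norm2 (rho P e he x) = (MS ι).norm2 x := by
  unfold TVN.norm2
  rw [← map_star, ← map_mul, rho_tr]

theorem rho_inj : Function.Injective (rho P e he) := by
  rw [injective_iff_map_eq_zero]
  intro x hx
  apply norm2_eq_zero
  rw [← rho_norm2 P e he, hx, norm2_zero]

theorem rho_norm (x : (MS ι).E) : T.opNorm (rho P e he x) = (MS ι).opNorm x :=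
  NonUnitalStarAlgHom.norm_map (F := (MS ι).E →⋆ₐ[ℂ] T.E) (A := Pool.Agent.H467F.Elt (MS ι).N)
    (B := Pool.Agent.H467F.Elt T.N) (rho P e he) (rho_inj P e he) x

end hom

/-- functoriality -/
theorem rho_comp {T : TVN} {S : Type} {W : V S → T.E} (P : PS T S W) {ι κ : Type} [Fintype ι] 
    [Fintype κ] (f : ι → κ) (hf : Function.Injective f) (e : κ → S) (he : Function.Injective e) 
    (e' : ι → S) (he' : Function.Injective e') (h : ∀ i, e' i = e (f i)) (x : (MS ι).E) : 
    rho P e' he' x = rho P e he (rho (ps_model κ) f hf x) := by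
  have := ext_WS (ι := ι) (lin W e') ((lin W e).comp (lin (WS κ) f)) (fun v => by
    show lin W e' (WS ι v) = lin W e (lin (WS κ) f (WS ι v))
    rw [lin_WS, lin_WS, lin_WS, ← Finsupp.mapDomain_comp]
    congr 2
    funext i
    exact h i)
  exact congrArg (fun g => g x) this

section gns

variable {κ : Type}

/-- the operator of an element of the model -/
noncomputable def opM (x : (MS κ).E) : EllTwo (Multiplicative (V κ)) →L[ℂ] EllTwo (Multiplicative (V κ)) := x.1

theorem opM_WS (v : V κ) : opM (WS κ v) = Lo (bS κ) (Multiplicative.ofAdd v) := rfl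

theorem opM_mul (x y : (MS κ).E) : opM (x * y) = opM x * opM y := rfl

theorem opM_norm2 (x : (MS κ).E) : (MS κ).norm2 x = ‖opM x Om‖ := TK_norm2 _ _

theorem opM_norm (x : (MS κ).E) : (MS κ).opNorm x = ‖opM x‖ := rfl

/-- the vector of an element -/
noncomputable def vecM : (MS κ).E →ₗ[ℂ] EllTwo (Multiplicative (V κ)) where
  toFun x := opM x Om
  map_add' _ _ := rfl
  map_smul' _ _ := rfl

theorem vecM_WS (v : V κ) : vecM (WS κ v) = bbG (Multiplicative (V κ)) (Multiplicative.ofAdd v) := by
  show opM (WS κ v) Om = _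
  rw [opM_WS, Lo_bb]

variable [Fintype κ]

/-- every vector is given by an element -/
theorem vec_eq (f : EllTwo (Multiplicative (V κ))) : ∃ ξ : (MS κ).E, vecM ξ = f := by
  classical
  have hfin0 : Finite (Multiplicative (V κ)) := inferInstanceAs (Finite (V κ))
  have hfin := Fintype.ofFinite (Multiplicative (V κ))
  have h1 := (hasSum_fintype _).unique ((bbG (Multiplicative (V κ))).hasSum_repr f)
  refine ⟨∑ g : Multiplicative (V κ), ((bbG (Multiplicative (V κ))).repr f g) • WS κ g.toAdd, ?_⟩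
  rw [map_sum]
  refine Eq.trans ?_ h1
  refine Finset.sum_congr rfl fun g _ => ?_
  rw [map_smul, vecM_WS]
  rfl

/-- bound for the operator norm through the trace -/
theorem op_le_of_tr (b : (MS κ).E) {C : ℝ} (hC : 0 ≤ C) (h : ∀ ξ η : (MS κ).E, 
    ‖(MS κ).τ (star η * b * ξ)‖ ≤ C * (MS κ).norm2 η * (MS κ).norm2 ξ) : (MS κ).opNorm b ≤ C := by
  rw [opM_norm]
  refine ContinuousLinearMap.opNorm_le_bound _ hC fun f => ?_
  obtain ⟨ξ, rfl⟩ := vec_eq f
  have h1 := h ξ (b * ξ)
  have e3 : (MS κ).τ (star (b * ξ) * b * ξ) = (((MS κ).norm2 (b * ξ) ^ 2 : ℝ) : ℂ) := by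
    rw [mul_assoc]
    exact (MS κ).trAlg.eq_sq (b * ξ)
  have e1 : (MS κ).norm2 (b * ξ) = ‖opM b (vecM ξ)‖ := by rw [opM_norm2]; rfl
  have e2 : (MS κ).norm2 ξ = ‖(vecM ξ : EllTwo (Multiplicative (V κ)))‖ := by rw [opM_norm2]; rfl
  rw [e3, Complex.norm_real, Real.norm_eq_abs, abs_of_nonneg (sq_nonneg _), e1, e2] at h1
  set y := opM b (vecM ξ) with hy
  rcases (norm_nonneg y).eq_or_lt with h0 | h0
  · rw [← h0]; positivity
  · have : ‖y‖ * ‖y‖ ≤ (C * ‖(vecM ξ : EllTwo (Multiplicative (V κ)))‖) * ‖y‖ := by nlinarith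
    exact le_of_mul_le_mul_right this h0

end gns

section ce

variable {T : TVN} {S : Type} {W : V S → T.E} (P : PS T S W) {κ : Type} [Fintype κ] (e : κ → S) 
  (he : Function.Injective e)

include P he

/-- the conditional expectation onto the local algebra -/
theorem exists_ce (x : T.E) : ∃ b : (MS κ).E, ∀ y : (MS κ).E, 
    (MS κ).τ (y * b) = T.τ (rho P e he y * x) := by
  classical
  refine ⟨∑ v : V κ, T.τ (star (W (v.mapDomain e)) * x) • WS κ v, fun y => ?_⟩
  have hl := ext_WS (ι := κ) ((MS κ).τ.comp (LinearMap.mulRight ℂ 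
    (∑ v : V κ, T.τ (star (W (v.mapDomain e)) * x) • WS κ v))) 
    ((T.τ.comp (LinearMap.mulRight ℂ x)).comp (lin W e)) (fun w => by
      show (MS κ).τ (WS κ w * ∑ v : V κ, T.τ (star (W (v.mapDomain e)) * x) • WS κ v) = 
        T.τ (lin W e (WS κ w) * x)
      rw [lin_WS, Finset.mul_sum, map_sum, Finset.sum_eq_single w]
      · rw [mul_smul_comm, map_smul, (ps_model κ).mul, v_add_self, map_smul, (ps_model κ).zero, 
          (MS κ).map_one, P.adj, bfS_map he, smul_mul_assoc, map_smul, smul_eq_mul, smul_eq_mul,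
          smul_eq_mul, mul_one, mul_right_comm, sg_mul_self, one_mul]
      · intro v _ hv
        rw [mul_smul_comm, map_smul, (ps_model κ).mul, map_smul, (ps_model κ).tr _ (fun h0 => hv ?_), 
          smul_zero, smul_zero]
        rw [← v_neg w]
        exact (neg_eq_of_add_eq_zero_right h0).symm
      · intro h
        exact absurd (Finset.mem_univ _) h)
  exact congrArg (fun g => g y) hl

theorem ce_bounds (x : T.E) (b : (MS κ).E) (hb : ∀ y : (MS κ).E, 
    (MS κ).τ (y * b) = T.τ (rho P e he y * x)) : (MS κ).opNorm b ≤ T.opNorm x ∧ 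
    (MS κ).norm2 b ≤ T.norm2 x := by
  constructor
  · refine op_le_of_tr b (op_nonneg T x) fun ξ η => ?_
    have e1 : (MS κ).τ (star η * b * ξ) = T.τ (star (rho P e he η) * (x * rho P e he ξ)) := by
      have e0 : rho P e he (ξ * star η) = rho P e he ξ * star (rho P e he η) := by
        rw [_root_.map_mul, map_star]
      calc (MS κ).τ (star η * b * ξ) = (MS κ).τ (ξ * (star η * b)) := (MS κ).tracial _ _
        _ = (MS κ).τ ((ξ * star η) * b) := by rw [mul_assoc]
        _ = T.τ (rho P e he ξ * (star (rho P e he η) * x)) := by rw [hb, e0, mul_assoc]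
        _ = T.τ (star (rho P e he η) * x * rho P e he ξ) := T.tracial _ _
        _ = _ := by rw [mul_assoc]
    rw [e1]
    refine (T.trAlg.cauchy _ _).trans ?_
    have h1 : n2 T.τ (rho P e he η) = (MS κ).norm2 η := rho_norm2 P e he η
    have h2 : n2 T.τ (x * rho P e he ξ) ≤ T.opNorm x * (MS κ).norm2 ξ := by
      rw [← rho_norm2 P e he ξ]
      exact norm2_mul_left T x _
    rw [h1]
    have h3 := norm2_nonneg (MS κ) η
    calc (MS κ).norm2 η * n2 T.τ (x * rho P e he ξ) ≤ (MS κ).norm2 η * (T.opNorm x * (MS κ).norm2 ξ) := 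
          mul_le_mul_of_nonneg_left h2 h3
      _ = _ := by ring
  · have h1 := hb (star b)
    rw [(MS κ).trAlg.eq_sq b, map_star] at h1
    have h2 := T.trAlg.cauchy (rho P e he b) x
    rw [← h1, Complex.norm_real, Real.norm_eq_abs, abs_of_nonneg (sq_nonneg _)] at h2
    have h3 : n2 T.τ (rho P e he b) = (MS κ).norm2 b := rho_norm2 P e he b
    rw [h3] at h2
    have h4 : n2 (MS κ).τ b = (MS κ).norm2 b := rfl
    rw [h4] at h2
    have h5 := norm2_nonneg (MS κ) b
    rcases h5.eq_or_lt with h0 | h0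
    · rw [← h0]; exact norm2_nonneg T x
    · have h6 : (MS κ).norm2 b * (MS κ).norm2 b ≤ (MS κ).norm2 b * T.norm2 x := by
        rw [← sq]; exact h2
      exact le_of_mul_le_mul_left h6 h0

omit he in
/-- elements of the span are local -/
theorem span_local (y : T.E) (hy : y ∈ Submodule.span ℂ (Set.range W)) : ∃ F : Finset S, 
    ∀ (κ : Type) (_ : Fintype κ) (e : κ → S) (he : Function.Injective e), 
      (F : Set S) ⊆ Set.range e → ∃ y0 : (MS κ).E, rho P e he y0 = y := by
  classical
  induction hy using Submodule.span_induction with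
  | mem y hy =>
    obtain ⟨v, rfl⟩ := hy
    refine ⟨v.support, fun κ _ e he hF => ⟨WS κ (v.comapDomain e he.injOn), ?_⟩⟩
    rw [rho_WS, Finsupp.mapDomain_comapDomain e he v hF]
  | zero => exact ⟨∅, fun κ _ e he hF => ⟨0, map_zero _⟩⟩
  | add a b _ _ ha hb =>
    obtain ⟨F, hF⟩ := ha
    obtain ⟨G, hG⟩ := hb
    refine ⟨F ∪ G, fun κ _ e he hFG => ?_⟩
    rw [Finset.coe_union, Set.union_subset_iff] at hFG
    obtain ⟨a0, rfl⟩ := hF κ inferInstance e he hFG.1
    obtain ⟨b0, rfl⟩ := hG κ inferInstance e he hFG.2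
    exact ⟨a0 + b0, map_add _ _ _⟩
  | smul c a _ ha =>
    obtain ⟨F, hF⟩ := ha
    refine ⟨F, fun κ _ e he h => ?_⟩
    obtain ⟨a0, rfl⟩ := hF κ inferInstance e he h
    exact ⟨c • a0, map_smul (rho P e he) c a0⟩

omit he in
/-- density of the local balls -/
theorem approx (x : T.E) {r : ℝ} (hx : T.opNorm x ≤ r) {ε : ℝ} (hε : 0 < ε) {ι : Type} [Fintype ι] 
    (e : ι → S) (he : Function.Injective e) : ∃ (d : ℕ) (g : Fin d → S) 
      (hg : Function.Injective (Sum.elim e g)) (b : (MS (ι ⊕ Fin d)).E), 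
      (MS (ι ⊕ Fin d)).opNorm b ≤ r ∧ T.norm2 (x - rho P (Sum.elim e g) hg b) ≤ ε := by
  classical
  obtain ⟨y, hy, hxy⟩ := P.dense x (ε / 2) (by positivity)
  obtain ⟨F, hF⟩ := span_local P y hy
  set F' : Finset S := F.filter (fun s => s ∉ Set.range e) with hF'
  set g : Fin F'.card → S := fun i => (F'.equivFin.symm i : S) with hgdef
  have hginj : Function.Injective g := Subtype.val_injective.comp F'.equivFin.symm.injective
  have hgr : ∀ i, g i ∉ Set.range e := fun i => (Finset.mem_filter.1 (F'.equivFin.symm i).2).2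
  have hg : Function.Injective (Sum.elim e g) := 
    Function.Injective.sumElim he hginj (fun a b h => hgr b ⟨a, h⟩)
  obtain ⟨y0, hy0⟩ := hF (ι ⊕ Fin F'.card) inferInstance (Sum.elim e g) hg (by
    intro s hs
    by_cases h : s ∈ Set.range e
    · obtain ⟨i, rfl⟩ := h
      exact ⟨Sum.inl i, rfl⟩
    · refine ⟨Sum.inr (F'.equivFin ⟨s, Finset.mem_filter.2 ⟨hs, h⟩⟩), ?_⟩
      show g _ = s
      rw [hgdef]
      simp)
  obtain ⟨b, hb⟩ := exists_ce P (Sum.elim e g) hg x
  refine ⟨F'.card, g, hg, b, (ce_bounds P _ hg x b hb).1.trans hx, ?_⟩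
  have h1 := (ce_bounds P _ hg (x - y) (b - y0) (by
    intro z
    rw [mul_sub, map_sub, hb, mul_sub, map_sub, ← hy0, ← map_mul, rho_tr])).2
  have e1 : x - rho P (Sum.elim e g) hg b = (x - y) - rho P (Sum.elim e g) hg (b - y0) := by
    rw [map_sub, hy0]
    abel
  rw [e1]
  refine (T.trAlg.n2_sub_le _ _).trans ?_
  have h2 : n2 T.τ (rho P (Sum.elim e g) hg (b - y0)) = (MS _).norm2 (b - y0) := rho_norm2 P _ hg _
  have h3 : n2 T.τ (x - y) = T.norm2 (x - y) := rfl
  rw [h2, h3]
  linarith

end ce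

end Pool.Agent.R970.SI
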