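import Pool.Agent.R970.SI.Loc

set_option autoImplicit false

/-! Transfer: the value of a formula at local elements does not depend on the algebra and on the
position. -/

namespace Pool.Agent.R970.SI

open Pool.Agent.H504R3 (TVN)
open Pool.Agent.H504R3.S
open Pool.Agent.W403.EP

theorem tval_hom {M N : TVN} (α : N.E →⋆ₐ[ℂ] M.E) {U : Type} (x : U → N.E) : ∀ t : Tm U, 
    tval M (fun i => α (x i)) t = α (tval N x t)
  | .var v => rfl
  | .one => (map_one α).symm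
  | .add s t => by
    show tval M _ s + tval M _ t = α (tval N x s + tval N x t)
    rw [tval_hom α x s, tval_hom α x t, map_add]
  | .mul s t => by
    show tval M _ s * tval M _ t = α (tval N x s * tval N x t)
    rw [tval_hom α x s, tval_hom α x t, map_mul]
  | .adj s => by
    show star (tval M _ s) = α (star (tval N x s))
    rw [tval_hom α x s, map_star]
  | .scal c s => by
    show c • tval M _ s = α (c • tval N x s)
    rw [tval_hom α x s, map_smul]

/-- a bound of the tuple -/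
lemma exists_bound {n : ℕ} {T : TVN} (a : Fin n → T.E) : ∃ R : ℝ, 0 ≤ R ∧ ∀ i, T.opNorm (a i) ≤ R := by
  refine ⟨∑ i, T.opNorm (a i), Finset.sum_nonneg fun i _ => op_nonneg T _, fun i => ?_⟩
  exact Finset.single_le_sum (f := fun i => T.opNorm (a i)) (fun i _ => op_nonneg T _) (Finset.mem_univ i)

/-- extension of an injection -/
lemma exists_ext {S ι : Type} [Infinite S] [Fintype ι] {e : ι → S} (he : Function.Injective e) (d : ℕ) : 
    ∃ g : Fin d → S, Function.Injective (Sum.elim e g) := by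
  classical
  have hinf : (Set.range e)ᶜ.Infinite := (Set.finite_range e).infinite_compl
  have := hinf.to_subtype
  set g : Fin d → S := fun i => ((Infinite.natEmbedding ((Set.range e)ᶜ : Set S) (i : ℕ)) : S) with hg
  refine ⟨g, Function.Injective.sumElim he ?_ ?_⟩
  · intro i j hij
    have h1 := (Infinite.natEmbedding ((Set.range e)ᶜ : Set S)).injective (Subtype.ext hij)
    exact Fin.ext h1
  · intro a b h
    exact (Infinite.natEmbedding ((Set.range e)ᶜ : Set S) (b : ℕ)).2 ⟨a, h⟩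

/-- the statement for a formula -/
def Tr {n : ℕ} (φ : Fm n) : Prop := ∀ (M1 M2 : TVN) (S1 S2 : Type) (_ : Infinite S1) (_ : Infinite S2)
  (W1 : V S1 → M1.E) (W2 : V S2 → M2.E) (P1 : PS M1 S1 W1) (P2 : PS M2 S2 W2) (ι : Type) (_ : Fintype ι)
  (e1 : ι → S1) (h1 : Function.Injective e1) (e2 : ι → S2) (h2 : Function.Injective e2) 
  (a : Fin n → (MS ι).E), φ.val (str M1) (fun i => rho P1 e1 h1 (a i)) = 
    φ.val (str M2) (fun i => rho P2 e2 h2 (a i))

lemma cons_fun {M N : TVN} {n : ℕ} (f : M.E → N.E) (b : M.E) (a : Fin n → M.E) : 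
    (fun i => f ((Fin.cons b a : Fin (n + 1) → M.E) i)) = (Fin.cons (f b) (fun i => f (a i)) : Fin (n + 1) → N.E) := by
  funext i
  refine Fin.cases rfl (fun i => rfl) i

/-- the step for quantifiers -/
lemma step {n : ℕ} {φ : Fm (n + 1)} (ih : Tr φ) (r : ℕ) {M1 M2 : TVN} {S1 S2 : Type} [Infinite S1] 
    [Infinite S2] {W1 : V S1 → M1.E} {W2 : V S2 → M2.E} (P1 : PS M1 S1 W1) (P2 : PS M2 S2 W2) {ι : Type} 
    [Fintype ι] (e1 : ι → S1) (h1 : Function.Injective e1) (e2 : ι → S2) (h2 : Function.Injective e2)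
    (a : Fin n → (MS ι).E) (z : (str M1).Ball r) {ε : ℝ} (hε : 0 < ε) : ∃ w : (str M2).Ball r, 
      |φ.val (str M1) (Fin.cons z.1 (fun i => rho P1 e1 h1 (a i))) - 
        φ.val (str M2) (Fin.cons w.1 (fun i => rho P2 e2 h2 (a i)))| ≤ ε := by
  obtain ⟨R, hR, ha⟩ := exists_bound a
  obtain ⟨δ, hδ, huc⟩ := (good φ).2 (max R r) (by positivity) ε hε
  obtain ⟨d, g1, hg1, b, hb, hz⟩ := approx P1 (z.1 : M1.E) (r := (r : ℝ)) z.2 hδ e1 h1
  obtain ⟨g2, hg2⟩ := exists_ext h2 d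
  have hw : M2.opNorm (rho P2 (Sum.elim e2 g2) hg2 b) ≤ r := by rw [rho_norm]; exact hb
  refine ⟨⟨rho P2 (Sum.elim e2 g2) hg2 b, hw⟩, ?_⟩
  set a' : Fin n → (MS (ι ⊕ Fin d)).E := fun i => rho (ps_model (ι ⊕ Fin d)) Sum.inl Sum.inl_injective (a i) with ha'
  have e1' : (fun i => rho P1 e1 h1 (a i)) = fun i => rho P1 (Sum.elim e1 g1) hg1 (a' i) := by
    funext i
    exact rho_comp P1 Sum.inl Sum.inl_injective _ hg1 _ h1 (fun _ => rfl) (a i)
  have e2' : (fun i => rho P2 e2 h2 (a i)) = fun i => rho P2 (Sum.elim e2 g2) hg2 (a' i) := by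
    funext i
    exact rho_comp P2 Sum.inl Sum.inl_injective _ hg2 _ h2 (fun _ => rfl) (a i)
  have h3 := ih M1 M2 S1 S2 inferInstance inferInstance W1 W2 P1 P2 (ι ⊕ Fin d) inferInstance 
    (Sum.elim e1 g1) hg1 (Sum.elim e2 g2) hg2 (Fin.cons b a')
  rw [cons_fun, cons_fun, ← e1', ← e2'] at h3
  have h4 := huc M1 (Fin.cons (z.1 : M1.E) (fun i => rho P1 e1 h1 (a i))) 
    (Fin.cons (rho P1 (Sum.elim e1 g1) hg1 b) (fun i => rho P1 e1 h1 (a i))) ?_ ?_ ?_
  · show |φ.val (str M1) (Fin.cons z.1 (fun i => rho P1 e1 h1 (a i))) - 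
        φ.val (str M2) (Fin.cons (rho P2 (Sum.elim e2 g2) hg2 b) (fun i => rho P2 e2 h2 (a i)))| ≤ ε
    have h5 : ∀ (x y y' : ℝ), y = y' → |x - y| ≤ ε → |x - y'| ≤ ε := by
      rintro x y _ rfl h
      exact h
    exact h5 _ _ _ h3 h4
  · exact cons_op (fun i => by rw [rho_norm]; exact ha i) z
  · exact cons_op (r := r) (fun i => by rw [rho_norm]; exact ha i) 
      (⟨rho P1 (Sum.elim e1 g1) hg1 b, by show M1.opNorm _ ≤ _; rw [rho_norm]; exact hb⟩ : (str M1).Ball r)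
  · intro i
    refine Fin.cases ?_ (fun i => ?_) i
    · exact hz
    · show M1.norm2 (rho P1 e1 h1 (a i) - rho P1 e1 h1 (a i)) ≤ δ
      rw [sub_self, norm2_zero]
      exact hδ.le

lemma bdd_of {n : ℕ} (φ : Fm (n + 1)) (r : ℕ) (M : TVN) (x : Fin n → M.E) : ∃ C : ℝ, 
    ∀ y : (str M).Ball r, |φ.val (str M) (Fin.cons y.1 x)| ≤ C := by
  obtain ⟨R, hR, hx⟩ := exists_bound x
  obtain ⟨C, hC⟩ := (good φ).1 (max R r) (by positivity)
  exact ⟨C, fun y => hC M _ (cons_op hx y)⟩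

theorem transfer {n : ℕ} (φ : Fm n) : Tr φ := by
  induction φ with
  | re t =>
    intro M1 M2 S1 S2 _ _ W1 W2 P1 P2 ι _ e1 h1 e2 h2 a
    show (M1.τ (tval M1 (fun i => rho P1 e1 h1 (a i)) t)).re = (M2.τ (tval M2 (fun i => rho P2 e2 h2 (a i)) t)).re
    rw [tval_hom, tval_hom, rho_tr, rho_tr]
  | im t =>
    intro M1 M2 S1 S2 _ _ W1 W2 P1 P2 ι _ e1 h1 e2 h2 a
    show (M1.τ (tval M1 (fun i => rho P1 e1 h1 (a i)) t)).im = (M2.τ (tval M2 (fun i => rho P2 e2 h2 (a i)) t)).im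
    rw [tval_hom, tval_hom, rho_tr, rho_tr]
  | nrm t =>
    intro M1 M2 S1 S2 _ _ W1 W2 P1 P2 ι _ e1 h1 e2 h2 a
    show M1.norm2 (tval M1 (fun i => rho P1 e1 h1 (a i)) t) = M2.norm2 (tval M2 (fun i => rho P2 e2 h2 (a i)) t)
    rw [tval_hom, tval_hom, rho_norm2, rho_norm2]
  | conn u φ ih =>
    intro M1 M2 S1 S2 i1 i2 W1 W2 P1 P2 ι i3 e1 h1 e2 h2 a
    show u (fun i => (φ i).val (str M1) _) = u (fun i => (φ i).val (str M2) _)
    congr 1
    funext i
    exact ih i M1 M2 S1 S2 i1 i2 W1 W2 P1 P2 ι i3 e1 h1 e2 h2 a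
  | @sup n r φ ih =>
    have key : ∀ (M1 M2 : TVN) (S1 S2 : Type) (_ : Infinite S1) (_ : Infinite S2)
        (W1 : V S1 → M1.E) (W2 : V S2 → M2.E) (P1 : PS M1 S1 W1) (P2 : PS M2 S2 W2) (ι : Type) 
        (_ : Fintype ι) (e1 : ι → S1) (h1 : Function.Injective e1) (e2 : ι → S2) 
        (h2 : Function.Injective e2) (a : Fin n → (MS ι).E), 
        (Fm.sup r φ).val (str M1) (fun i => rho P1 e1 h1 (a i)) ≤ 
          (Fm.sup r φ).val (str M2) (fun i => rho P2 e2 h2 (a i)) := by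
      intro M1 M2 S1 S2 _ _ W1 W2 P1 P2 ι _ e1 h1 e2 h2 a
      apply le_of_forall_pos_le_add
      intro ε hε
      refine ciSup_le fun z => ?_
      obtain ⟨w, hw⟩ := step ih r P1 P2 e1 h1 e2 h2 a z hε
      obtain ⟨C, hC⟩ := bdd_of φ r M2 (fun i => rho P2 e2 h2 (a i))
      have h3 := le_ciSup (f := fun w : (str M2).Ball r => 
        φ.val (str M2) (Fin.cons w.1 (fun i => rho P2 e2 h2 (a i)))) 
        ⟨C, by rintro _ ⟨y, rfl⟩; exact (abs_le.1 (hC y)).2⟩ w
      have h4 := (abs_le.1 hw).2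
      have h5 : (⨆ w : (str M2).Ball r, φ.val (str M2) (Fin.cons w.1 (fun i => rho P2 e2 h2 (a i)))) = 
        (Fm.sup r φ).val (str M2) (fun i => rho P2 e2 h2 (a i)) := rfl
      rw [h5] at h3
      linarith
    intro M1 M2 S1 S2 i1 i2 W1 W2 P1 P2 ι i3 e1 h1 e2 h2 a
    exact le_antisymm (key M1 M2 S1 S2 i1 i2 W1 W2 P1 P2 ι i3 e1 h1 e2 h2 a) 
      (key M2 M1 S2 S1 i2 i1 W2 W1 P2 P1 ι i3 e2 h2 e1 h1 a)
  | @inf n r φ ih =>
    have key : ∀ (M1 M2 : TVN) (S1 S2 : Type) (_ : Infinite S1) (_ : Infinite S2)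
        (W1 : V S1 → M1.E) (W2 : V S2 → M2.E) (P1 : PS M1 S1 W1) (P2 : PS M2 S2 W2) (ι : Type) 
        (_ : Fintype ι) (e1 : ι → S1) (h1 : Function.Injective e1) (e2 : ι → S2) 
        (h2 : Function.Injective e2) (a : Fin n → (MS ι).E), 
        (Fm.inf r φ).val (str M2) (fun i => rho P2 e2 h2 (a i)) ≤ 
          (Fm.inf r φ).val (str M1) (fun i => rho P1 e1 h1 (a i)) := by
      intro M1 M2 S1 S2 _ _ W1 W2 P1 P2 ι _ e1 h1 e2 h2 a
      refine le_ciInf fun z => ?_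
      apply le_of_forall_pos_le_add
      intro ε hε
      obtain ⟨w, hw⟩ := step ih r P1 P2 e1 h1 e2 h2 a z hε
      obtain ⟨C, hC⟩ := bdd_of φ r M2 (fun i => rho P2 e2 h2 (a i))
      have h3 := ciInf_le (f := fun w : (str M2).Ball r => 
        φ.val (str M2) (Fin.cons w.1 (fun i => rho P2 e2 h2 (a i)))) 
        ⟨-C, by rintro _ ⟨y, rfl⟩; exact (abs_le.1 (hC y)).1⟩ w
      have h4 := (abs_le.1 hw).1
      have h5 : (⨅ w : (str M2).Ball r, φ.val (str M2) (Fin.cons w.1 (fun i => rho P2 e2 h2 (a i)))) = 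
        (Fm.inf r φ).val (str M2) (fun i => rho P2 e2 h2 (a i)) := rfl
      rw [h5] at h3
      linarith
    intro M1 M2 S1 S2 i1 i2 W1 W2 P1 P2 ι i3 e1 h1 e2 h2 a
    exact le_antisymm (key M2 M1 S2 S1 i2 i1 W2 W1 P2 P1 ι i3 e2 h2 e1 h1 a)
      (key M1 M2 S1 S2 i1 i2 W1 W2 P1 P2 ι i3 e1 h1 e2 h2 a)

/-- Pauli strings over arbitrary index sets -/
theorem transfer_W {n : ℕ} (φ : Fm n) {M1 M2 : TVN} {S1 S2 : Type} [Infinite S1] [Infinite S2]
    {W1 : V S1 → M1.E} {W2 : V S2 → M2.E} (P1 : PS M1 S1 W1) (P2 : PS M2 S2 W2) {J : Type} 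
    (e1 : J → S1) (e2 : J → S2) (q : Fin n → V J) 
    (h1 : Set.InjOn e1 {j | ∃ i, q i j ≠ 0}) (h2 : Set.InjOn e2 {j | ∃ i, q i j ≠ 0}) : 
    φ.val (str M1) (fun i => W1 ((q i).mapDomain e1)) = φ.val (str M2) (fun i => W2 ((q i).mapDomain e2)) := by
  classical
  set F : Finset J := Finset.univ.biUnion fun i => (q i).support with hF
  have hFm : ∀ j, j ∈ F ↔ j ∈ {j | ∃ i, q i j ≠ 0} := by
    intro j
    simp [hF]
  have hi1 : Function.Injective (fun j : F => e1 j) := by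
    intro a b hab
    exact Subtype.ext (h1 ((hFm _).1 a.2) ((hFm _).1 b.2) hab)
  have hi2 : Function.Injective (fun j : F => e2 j) := by
    intro a b hab
    exact Subtype.ext (h2 ((hFm _).1 a.2) ((hFm _).1 b.2) hab)
  set a : Fin n → (MS F).E := fun i => WS F ((q i).comapDomain (fun j : F => (j : J)) 
    Subtype.val_injective.injOn) with ha
  have hq : ∀ i, ((q i).comapDomain (fun j : F => (j : J)) Subtype.val_injective.injOn).mapDomain 
      (fun j : F => (j : J)) = q i := by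
    intro i
    apply Finsupp.mapDomain_comapDomain _ Subtype.val_injective
    intro j hj
    exact ⟨⟨j, Finset.mem_biUnion.2 ⟨i, Finset.mem_univ i, hj⟩⟩, rfl⟩
  have h3 := transfer φ M1 M2 S1 S2 inferInstance inferInstance W1 W2 P1 P2 F inferInstance 
    (fun j : F => e1 j) hi1 (fun j : F => e2 j) hi2 a
  have e1' : ∀ i, rho P1 (fun j : F => e1 j) hi1 (a i) = W1 ((q i).mapDomain e1) := by
    intro i
    rw [ha, rho_WS]
    conv_rhs => rw [← hq i, ← Finsupp.mapDomain_comp]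
    rfl
  have e2' : ∀ i, rho P2 (fun j : F => e2 j) hi2 (a i) = W2 ((q i).mapDomain e2) := by
    intro i
    rw [ha, rho_WS]
    conv_rhs => rw [← hq i, ← Finsupp.mapDomain_comp]
    rfl
  simp only [e1', e2'] at h3
  exact h3

/-- elementary equivalence -/
theorem elemEq {M1 M2 : TVN} {S1 S2 : Type} [Infinite S1] [Infinite S2]
    {W1 : V S1 → M1.E} {W2 : V S2 → M2.E} (P1 : PS M1 S1 W1) (P2 : PS M2 S2 W2) : 
    (str M1).ElemEq (str M2) := by
  intro φ
  have h := transfer φ M1 M2 S1 S2 inferInstance inferInstance W1 W2 P1 P2 Empty inferInstance 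
    Empty.elim (fun a => a.elim) Empty.elim (fun a => a.elim) Fin.elim0
  have e1 : (fun i : Fin 0 => rho P1 (Empty.elim : Empty → S1) (fun a => a.elim) 
      ((Fin.elim0 : Fin 0 → (MS Empty).E) i)) = Fin.elim0 := funext fun i => i.elim0
  have e2 : (fun i : Fin 0 => rho P2 (Empty.elim : Empty → S2) (fun a => a.elim) 
      ((Fin.elim0 : Fin 0 → (MS Empty).E) i)) = Fin.elim0 := funext fun i => i.elim0
  rw [e1, e2] at h
  exact h

end Pool.Agent.R970.SI
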