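import Pool.Agent.R970.SI.Simple
import Pool.Agent.R970.SI.Transfer
import Pool.Agent.R970.SI.Flip
import Pool.Agent.H504R3.PauliM

set_option autoImplicit false

/-! The theory of the hyperfinite factor is not simple. -/

namespace Pool.Agent.R970.SI

open Pool.Agent.H504R3 (TVN)
open Pool.Agent.H504R3.S
open Pool.Agent.W403.EP
open Pool.Agent.Helper436.SM (sg sg_mul_self sg_add)
open Filter Topology

/-- the hyperfinite factor -/
theorem ps_hyp (T : TVN) (h : T.IsHyperfinite) : ∃ W : V ℕ → T.E, PS T ℕ W := by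
  obtain ⟨j, hc, hd⟩ := h
  have hP := Pool.Agent.H504R3.pauliSys (j := j) hc T.trAlg
  refine ⟨Pool.Agent.H504R3.Ws j, hP.zero, hP.mul, hP.star, ?_, ?_⟩
  · intro v hv
    rw [hP.trace, if_neg hv]
  · intro x ε hε
    obtain ⟨y, hy, hxy⟩ := hd x ε hε
    refine ⟨y, ?_, hxy⟩
    obtain ⟨F, c, rfl⟩ := Pool.Agent.H504R3.adjoin_le hc y hy
    exact Submodule.sum_mem _ fun t _ => Submodule.smul_mem _ _ (Submodule.subset_span ⟨t, rfl⟩)

section

variable {T : TVN} {S : Type} {W : V S → T.E} (P : PS T S W)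

include P

theorem op_W (v : V S) : T.opNorm (W v) ≤ 1 := by
  have h1 : T.opNorm (star (W v) * W v) = T.opNorm (W v) * T.opNorm (W v) := 
    CStarRing.norm_star_mul_self (x := (W v : T.H →L[ℂ] T.H))
  rw [P.sg_cancel] at h1
  have h2 := op_one T
  nlinarith [op_nonneg T (W v)]

theorem Zs_dist {s t : S} (h : s ≠ t) : 1 < T.norm2 (Zs W s - Zs W t) := by
  have hne : (Finsupp.single s ((0 : ZMod 2), (1 : ZMod 2)) : V S) ≠ Finsupp.single t (0, 1) := by
    intro h1
    exact h ((Finsupp.single_left_inj (by decide)).1 h1)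
  have h1 : T.τ (star (Zs W s - Zs W t) * (Zs W s - Zs W t)) = 2 := by
    rw [star_sub, sub_mul, mul_sub, mul_sub, map_sub, map_sub, map_sub]
    unfold Zs
    rw [P.star_mul_self, P.star_mul_self, P.star_mul _ _ hne, P.star_mul _ _ hne.symm]
    norm_num
  unfold TVN.norm2
  rw [h1]
  rw [Real.lt_sqrt (by norm_num)]
  norm_num

end

variable {T : TVN} {I : Type} {W : V (I × ℕ) → T.E} (P : PS T (I × ℕ) W)

/-- the parameters -/
def BB (W : V (I × ℕ) → T.E) : Set T.E := Set.range (fun q : I × Fin 2 => Zs W (q.1, (q.2 : ℕ)))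

/-- the ultrafilter -/
noncomputable def UU (I : Type) : Ultrafilter (Finset I) := Ultrafilter.of atTop

theorem UU_mem (α : I) : ∀ᶠ F in (UU I : Filter (Finset I)), α ∈ F := by
  have h : ∀ᶠ F in (atTop : Filter (Finset I)), α ∈ F := by
    filter_upwards [eventually_ge_atTop ({α} : Finset I)] with F hF
    exact hF (Finset.mem_singleton_self α)
  exact (Ultrafilter.of_le (atTop : Filter (Finset I))) h

/-- the unitaries -/
noncomputable def uu (F : Finset I) : T.E := (exists_u P F).choose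

theorem uu_spec (F : Finset I) : star (uu P F) * uu P F = 1 ∧ uu P F * star (uu P F) = 1 ∧ 
    ∀ α ∈ F, uu P F * Zs W (α, 0) = Zs W (α, 1) * uu P F :=
  ⟨(exists_u P F).choose_spec.1, (exists_u P F).choose_spec.2.1, (exists_u P F).choose_spec.2.2.1⟩

theorem uu_op (F : Finset I) : T.opNorm (uu P F) ≤ 1 := by
  have h1 : T.opNorm (star (uu P F) * uu P F) = T.opNorm (uu P F) * T.opNorm (uu P F) := 
    CStarRing.norm_star_mul_self (x := (uu P F : T.H →L[ℂ] T.H))
  rw [(uu_spec P F).1] at h1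
  have h2 := op_one T
  nlinarith [op_nonneg T (uu P F)]

/-- the type -/
noncomputable def pp : Ty 1 (BB W) := fun n φ s => 
  limUnder (UU I : Filter (Finset I)) (fun F => φ.val (str T) (Fin.append (fun _ : Fin 1 => uu P F) 
    (fun l => ((s l).1 : T.E))))

theorem pp_tendsto (n : ℕ) (φ : Fm (1 + n)) (s : Fin n → BB W) : 
    Tendsto (fun F => φ.val (str T) (Fin.append (fun _ : Fin 1 => uu P F) 
      (fun l => ((s l).1 : T.E)))) (UU I : Filter (Finset I)) (𝓝 (pp P n φ s)) := by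
  obtain ⟨C, hC⟩ := (good φ).1 1 zero_le_one
  have hb : ∀ F, φ.val (str T) (Fin.append (fun _ : Fin 1 => uu P F) (fun l => ((s l).1 : T.E))) ∈ 
      Set.Icc (-C) C := by
    intro F
    rw [Set.mem_Icc, ← abs_le]
    apply hC T
    have hgen : ∀ (x : Fin 1 → T.E) (y : Fin n → T.E), (∀ i, T.opNorm (x i) ≤ 1) → 
        (∀ i, T.opNorm (y i) ≤ 1) → ∀ i, T.opNorm (Fin.append x y i) ≤ 1 := by
      intro x y hx hy i
      refine Fin.addCases (fun i => ?_) (fun i => ?_) i
      · rw [Fin.append_left]; exact hx i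
      · rw [Fin.append_right]; exact hy i
    refine hgen _ _ (fun _ => uu_op P F) (fun i => ?_)
    obtain ⟨q, hq⟩ := (s i).2
    rw [← hq]
    exact op_W P _
  have hcomp := (isCompact_Icc (a := -C) (b := C)).ultrafilter_le_nhds 
    (Ultrafilter.map (fun F => φ.val (str T) (Fin.append (fun _ : Fin 1 => uu P F) 
      (fun l => ((s l).1 : T.E)))) (UU I)) (by
      rw [le_principal_iff, Ultrafilter.mem_coe, Ultrafilter.mem_map]
      exact Filter.univ_mem' hb)
  obtain ⟨L, -, hL⟩ := hcomp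
  have hL' : Tendsto (fun F => φ.val (str T) (Fin.append (fun _ : Fin 1 => uu P F) 
      (fun l => ((s l).1 : T.E)))) (UU I : Filter (Finset I)) (𝓝 L) := hL
  exact tendsto_nhds_limUnder ⟨L, hL'⟩

theorem pp_type : IsType (str T) (BB W) (fun _ => 1) (pp P) := by
  intro ε hε K
  have h1 : ∀ c ∈ K, ∀ᶠ F in (UU I : Filter (Finset I)), 
      |c.2.2.1.val (str T) (Fin.append (fun _ : Fin 1 => uu P F) (fun l => ((c.2.2.2 l).1 : T.E))) - 
        pp P c.2.1 c.2.2.1 c.2.2.2| < ε := by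
    intro c _
    have := (pp_tendsto P c.2.1 c.2.2.1 c.2.2.2).eventually (Metric.ball_mem_nhds _ hε)
    filter_upwards [this] with F hF
    rwa [Real.dist_eq] at hF
  obtain ⟨F, hF⟩ := ((Filter.eventually_all_finset K).2 h1).exists
  refine ⟨fun _ => uu P F, fun _ => ?_, hF⟩
  show T.opNorm (uu P F) ≤ ((1 : ℕ) : ℝ)
  rw [Nat.cast_one]
  exact uu_op P F

/-- the formula `‖x b - a x‖₂` -/
noncomputable def f1 : Fm (1 + 2) := .nrm (.add (.mul (.var (Fin.castAdd 2 0)) (.var (Fin.natAdd 1 0))) 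
  (.scal (-1) (.mul (.var (Fin.natAdd 1 1)) (.var (Fin.castAdd 2 0)))))

/-- the formula `‖x x* - 1‖₂` -/
noncomputable def f2 : Fm (1 + 0) := .nrm (.add (.mul (.var (Fin.castAdd 0 0)) (.adj (.var (Fin.castAdd 0 0)))) 
  (.scal (-1) .one))

theorem f1_val (x : Fin 1 → T.E) (y : Fin 2 → T.E) : 
    f1.val (str T) (Fin.append x y) = T.norm2 (x 0 * y 0 - y 1 * x 0) := by
  have : f1.val (str T) (Fin.append x y) = T.norm2 ((Fin.append x y) (Fin.castAdd 2 0) * 
      (Fin.append x y) (Fin.natAdd 1 0) + (-1 : ℂ) • ((Fin.append x y) (Fin.natAdd 1 1) * 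
      (Fin.append x y) (Fin.castAdd 2 0))) := rfl
  rw [this, Fin.append_left, Fin.append_right, Fin.append_right, neg_one_smul, ← sub_eq_add_neg]

theorem f2_val (x : Fin 1 → T.E) (y : Fin 0 → T.E) : 
    f2.val (str T) (Fin.append x y) = T.norm2 (x 0 * star (x 0) - 1) := by
  have : f2.val (str T) (Fin.append x y) = T.norm2 ((Fin.append x y) (Fin.castAdd 0 0) * 
      star ((Fin.append x y) (Fin.castAdd 0 0)) + (-1 : ℂ) • (1 : T.E)) := rfl
  rw [this, Fin.append_left, neg_one_smul, ← sub_eq_add_neg]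

theorem pp_f1 (α : I) : pp P 2 f1 ![⟨Zs W (α, 0), ⟨(α, 0), rfl⟩⟩, ⟨Zs W (α, 1), ⟨(α, 1), rfl⟩⟩] = 0 := by
  apply tendsto_nhds_unique (pp_tendsto P 2 f1 _)
  apply tendsto_const_nhds.congr'
  filter_upwards [UU_mem α] with F hF
  rw [f1_val]
  have := (uu_spec P F).2.2 α hF
  show (0 : ℝ) = T.norm2 (uu P F * Zs W (α, 0) - Zs W (α, 1) * uu P F)
  rw [this, sub_self, norm2_zero]

theorem pp_f2 (s : Fin 0 → BB W) : pp P 0 f2 s = 0 := by
  apply tendsto_nhds_unique (pp_tendsto P 0 f2 _)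
  apply tendsto_const_nhds.congr
  intro F
  rw [f2_val, (uu_spec P F).2.1, sub_self, norm2_zero]

section div

open Classical in
/-- the indiscernible sequence -/
noncomputable def bet (W : V (I × ℕ) → T.E) (α : I) (i : ℕ) (b : BB W) : T.E := 
  if b.1 = Zs W (α, 1) then Zs W (α, 1 + i) else b.1

theorem bet_zero (α : I) (b : BB W) : bet W α 0 b = b.1 := by
  unfold bet
  split_ifs with h
  · exact h.symm
  · rfl

include P in
theorem Zs_inj : Function.Injective (Zs W) := by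
  intro s t h
  by_contra hne
  have := Zs_dist P hne
  rw [h, sub_self, norm2_zero] at this
  linarith

include P in
theorem indisc [Infinite I] (α : I) (A : Set T.E) (hA : A ⊆ BB W) (hα : Zs W (α, 1) ∉ A) : 
    Indiscernible (str T) A (bet W α) := by
  classical
  have : Infinite (I × ℕ) := inferInstance
  intro k i j hi hj n φ s
  -- sites
  have hB : ∀ b : BB W, ∃ q : I × Fin 2, Zs W (q.1, (q.2 : ℕ)) = b.1 := fun b => b.2
  choose site hsite using hB
  let q : Fin n → V ((I × ℕ) ⊕ Fin k) := fun l => match s l with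
    | .inl (m, b) => if b.1 = Zs W (α, 1) then Finsupp.single (Sum.inr m) (0, 1) 
        else Finsupp.single (Sum.inl ((site b).1, ((site b).2 : ℕ))) (0, 1)
    | .inr a => Finsupp.single (Sum.inl ((site ⟨a.1, hA a.2⟩).1, ((site ⟨a.1, hA a.2⟩).2 : ℕ))) (0, 1)
  let e : (Fin k → ℕ) → ((I × ℕ) ⊕ Fin k) → I × ℕ := fun i => Sum.elim id (fun m => (α, 1 + i m))
  have hval : ∀ (i : Fin k → ℕ) (l : Fin n), Sum.elim (fun q : Fin k × BB W => bet W α (i q.1) q.2) 
      (fun a : A => a.1) (s l) = W ((q l).mapDomain (e i)) := by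
    intro i l
    rcases hs : s l with ⟨m, b⟩ | a
    · have hq : q l = if b.1 = Zs W (α, 1) then Finsupp.single (Sum.inr m) (0, 1) 
        else Finsupp.single (Sum.inl ((site b).1, ((site b).2 : ℕ))) (0, 1) := by
        simp only [q, hs]
      rw [hq]
      show bet W α (i m) b = _
      unfold bet
      split_ifs with h
      · rw [Finsupp.mapDomain_single]; rfl
      · rw [Finsupp.mapDomain_single]
        exact (hsite b).symm
    · have hq : q l = Finsupp.single (Sum.inl ((site ⟨a.1, hA a.2⟩).1, ((site ⟨a.1, hA a.2⟩).2 : ℕ))) (0, 1) := by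
        simp only [q, hs]
      rw [hq, Finsupp.mapDomain_single]
      exact (hsite ⟨a.1, hA a.2⟩).symm
  -- the used symbols
  have hused : ∀ t : (I × ℕ) ⊕ Fin k, (∃ l, q l t ≠ 0) → 
      (∃ m, t = Sum.inr m) ∨ ∃ r : I × ℕ, t = Sum.inl r ∧ r.2 ≤ 1 ∧ r ≠ (α, 1) := by
    rintro t ⟨l, hl⟩
    rcases hs : s l with ⟨m, b⟩ | a
    · have hq : q l = if b.1 = Zs W (α, 1) then Finsupp.single (Sum.inr m) (0, 1) 
        else Finsupp.single (Sum.inl ((site b).1, ((site b).2 : ℕ))) (0, 1) := by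
        simp only [q, hs]
      rw [hq] at hl
      split_ifs at hl with h
      · left
        refine ⟨m, ?_⟩
        by_contra hne
        exact hl (Finsupp.single_eq_of_ne hne)
      · right
        refine ⟨((site b).1, ((site b).2 : ℕ)), ?_, ?_, ?_⟩
        · by_contra hne
          exact hl (Finsupp.single_eq_of_ne hne)
        · have := (site b).2.2
          show ((site b).2 : ℕ) ≤ 1
          omega
        · intro h0
          apply h
          rw [← h0]
          exact (hsite b).symm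
    · have hq : q l = Finsupp.single (Sum.inl ((site ⟨a.1, hA a.2⟩).1, ((site ⟨a.1, hA a.2⟩).2 : ℕ))) (0, 1) := by
        simp only [q, hs]
      rw [hq] at hl
      right
      refine ⟨((site ⟨a.1, hA a.2⟩).1, ((site ⟨a.1, hA a.2⟩).2 : ℕ)), ?_, ?_, ?_⟩
      · by_contra hne
        exact hl (Finsupp.single_eq_of_ne hne)
      · have := (site ⟨a.1, hA a.2⟩).2.2
        show ((site ⟨a.1, hA a.2⟩).2 : ℕ) ≤ 1
        omega
      · intro h0
        apply hα
        have h1 := hsite ⟨a.1, hA a.2⟩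
        rw [h0] at h1
        rw [h1]
        exact a.2
  have hinj : ∀ i : Fin k → ℕ, StrictMono i → Set.InjOn (e i) {t | ∃ l, q l t ≠ 0} := by
    intro i hi t ht t' ht' h
    rcases hused t ht with ⟨m, rfl⟩ | ⟨r, rfl, hr1, hr2⟩ <;> 
      rcases hused t' ht' with ⟨m', rfl⟩ | ⟨r', rfl, hr1', hr2'⟩
    · have h1 : (α, 1 + i m) = (α, 1 + i m') := h
      have h2 := congrArg Prod.snd h1
      have h3 : i m = i m' := by simpa using h2
      rw [hi.injective h3]
    · exfalso
      have h1 : (α, 1 + i m) = r' := h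
      rw [← h1] at hr1' hr2'
      have h2 : i m = 0 := by
        have : 1 + i m ≤ 1 := hr1'
        omega
      rw [h2] at hr2'
      exact hr2' rfl
    · exfalso
      have h1 : r = (α, 1 + i m') := h
      rw [h1] at hr1 hr2
      have h2 : i m' = 0 := by
        have : 1 + i m' ≤ 1 := hr1
        omega
      rw [h2] at hr2
      exact hr2 rfl
    · have h1 : r = r' := h
      rw [h1]
  have h := transfer_W φ P P (e i) (e j) q (hinj i hi) (hinj j hj)
  have h1 := congrArg (φ.val (str T)) (funext (hval i))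
  have h2 := congrArg (φ.val (str T)) (funext (hval j))
  exact h1.trans (h.trans h2.symm)

theorem inconsistent (α : I) : ¬ Consistent (str T) (fun _ : Fin 1 => 1) (pp P) (bet W α) := by
  classical
  intro hcon
  set b0 : BB W := ⟨Zs W (α, 0), ⟨(α, 0), rfl⟩⟩ with hb0
  set b1 : BB W := ⟨Zs W (α, 1), ⟨(α, 1), rfl⟩⟩ with hb1
  obtain ⟨x, hx, h⟩ := hcon (1 / 4) (by norm_num) 
    {(0, ⟨2, (f1, ![b0, b1])⟩), (1, ⟨2, (f1, ![b0, b1])⟩), (0, ⟨0, (f2, Fin.elim0)⟩)}
  have hx0 : T.opNorm (x 0) ≤ 1 := by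
    have h1 : T.opNorm (x 0) ≤ ((1 : ℕ) : ℝ) := hx 0
    rwa [Nat.cast_one] at h1
  have k1 := h (0, ⟨2, (f1, ![b0, b1])⟩) (by simp)
  have k2 := h (1, ⟨2, (f1, ![b0, b1])⟩) (by simp)
  have k3 := h (0, ⟨0, (f2, Fin.elim0)⟩) (by simp)
  have hp1 : pp P 2 f1 ![b0, b1] = 0 := pp_f1 P α
  have hp2 : pp P 0 f2 Fin.elim0 = 0 := pp_f2 P _
  have hgen : ∀ (a a' p : ℝ), a = a' → p = 0 → |a - p| < 1 / 4 → a' < 1 / 4 := by
    rintro a _ _ rfl rfl h
    rw [sub_zero] at h
    exact (le_abs_self _).trans_lt h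
  replace k1 := hgen _ _ _ (f1_val (x : Fin 1 → T.E) (fun l => bet W α 0 (![b0, b1] l))) hp1 k1
  replace k2 := hgen _ _ _ (f1_val (x : Fin 1 → T.E) (fun l => bet W α 1 (![b0, b1] l))) hp1 k2
  replace k3 := hgen _ _ _ (f2_val (x : Fin 1 → T.E) (fun l => bet W α 0 (Fin.elim0 l))) hp2 k3
  have hne : Zs W (α, 0) ≠ Zs W (α, 1) := fun h => by
    have := Zs_inj P h
    simp at this
  have e00 : ∀ i, bet W α i b0 = Zs W (α, 0) := fun i => if_neg hne
  have e01 : ∀ i, bet W α i b1 = Zs W (α, 1 + i) := fun i => if_pos rfl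
  obtain ⟨X, hX, k1', k2', k3'⟩ : ∃ X : T.E, T.opNorm X ≤ 1 ∧ 
      T.norm2 (X * Zs W (α, 0) - Zs W (α, 1 + 0) * X) < 1 / 4 ∧ 
      T.norm2 (X * Zs W (α, 0) - Zs W (α, 1 + 1) * X) < 1 / 4 ∧ T.norm2 (X * star X - 1) < 1 / 4 := by
    obtain ⟨X, hX⟩ : ∃ X : Fin 1 → T.E, X = x := ⟨x, rfl⟩
    refine ⟨X 0, ?_, ?_, ?_, ?_⟩
    · rw [hX]; exact hx0
    · have h1 : T.norm2 (X 0 * bet W α 0 b0 - bet W α 0 b1 * X 0) < 1 / 4 := by
        rw [hX]; exact k1
      rwa [e00, e01] at h1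
    · have h1 : T.norm2 (X 0 * bet W α 1 b0 - bet W α 1 b1 * X 0) < 1 / 4 := by
        rw [hX]; exact k2
      rwa [e00, e01] at h1
    · rw [hX]; exact k3
  set D : T.E := Zs W (α, 1 + 0) - Zs W (α, 1 + 1) with hD
  have hd := Zs_dist P (s := (α, 1 + 0)) (t := (α, 1 + 1)) (by simp)
  have hDop : T.opNorm D ≤ 2 := by
    have h1 : D = Zs W (α, 1 + 0) + (-1 : ℂ) • Zs W (α, 1 + 1) := by rw [neg_one_smul, ← sub_eq_add_neg]
    rw [h1]
    refine (op_add T _ _).trans ?_
    rw [op_smul, norm_neg, norm_one, one_mul]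
    have := op_W P (Finsupp.single (α, 1 + 0) ((0 : ZMod 2), (1 : ZMod 2)))
    have := op_W P (Finsupp.single (α, 1 + 1) ((0 : ZMod 2), (1 : ZMod 2)))
    unfold Zs
    linarith
  have g1 : T.norm2 (D * X) ≤ 1 / 2 := by
    have e : D * X = (X * Zs W (α, 0) - Zs W (α, 1 + 1) * X) - (X * Zs W (α, 0) - Zs W (α, 1 + 0) * X) := by
      rw [hD, sub_mul]; abel
    rw [e]
    refine (T.trAlg.n2_sub_le _ _).trans ?_
    have a1 : Pool.Agent.Helper278.n2 T.τ (X * Zs W (α, 0) - Zs W (α, 1 + 1) * X) < 1 / 4 := k2'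
    have a2 : Pool.Agent.Helper278.n2 T.τ (X * Zs W (α, 0) - Zs W (α, 1 + 0) * X) < 1 / 4 := k1'
    linarith
  have g2 : T.norm2 (D * X * star X) ≤ 1 / 2 := by
    refine (norm2_mul_right T _ _).trans ?_
    rw [op_star]
    have := norm2_nonneg T (D * X)
    nlinarith [op_nonneg T X]
  have g3 : T.norm2 (D * (X * star X - 1)) ≤ 1 / 2 := by
    refine (norm2_mul_left T _ _).trans ?_
    have := norm2_nonneg T (X * star X - 1)
    nlinarith [op_nonneg T D]
  have g4 : T.norm2 D ≤ 1 := by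
    have e : D = D * X * star X - D * (X * star X - 1) := by
      rw [mul_sub, mul_one, mul_assoc]; abel
    rw [e]
    refine (T.trAlg.n2_sub_le _ _).trans ?_
    have a1 : Pool.Agent.Helper278.n2 T.τ (D * X * star X) ≤ 1 / 2 := g2
    have a2 : Pool.Agent.Helper278.n2 T.τ (D * (X * star X - 1)) ≤ 1 / 2 := g3
    linarith
  linarith

end div

include P in
theorem not_simple_of [Uncountable I] {R : Str} (hE : (str T).ElemEq R) : ¬ IsSimpleTheory R := by
  classical
  intro hs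
  have : Infinite I := inferInstance
  obtain ⟨A, hAB, ⟨D, hD, hDA, hdense⟩, hnd⟩ := hs (str T) (isTVN T) hE (BB W) 1 (fun _ => 1) (pp P) (pp_type P)
  -- `A` is countable
  have hAD : A ⊆ D := by
    intro x hx
    obtain ⟨y, hy, hxy⟩ := hdense x hx 1 one_pos
    obtain ⟨q, hq⟩ := hAB hx
    obtain ⟨q', hq'⟩ := hAB (hDA hy)
    have hq0 : Zs W (q.1, (q.2 : ℕ)) = x := hq
    have hq0' : Zs W (q'.1, (q'.2 : ℕ)) = y := hq'
    by_cases h : (q.1, (q.2 : ℕ)) = (q'.1, (q'.2 : ℕ))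
    · have : x = y := by rw [← hq0, ← hq0', h]
      rw [this]; exact hy
    · exfalso
      have h1 := Zs_dist P h
      rw [hq0, hq0'] at h1
      have h2 : ∀ (x y : T.E), (str T).norm2 ((str T).sub x y) < 1 → T.norm2 (x - y) < 1 := by
        intro x y h
        exact lt_of_eq_of_lt (congrArg (fun z : T.E => T.norm2 z) (sub_eq T x y)).symm h
      exact absurd (h2 x y hxy) (not_lt.2 h1.le)
  have hAc : A.Countable := hD.mono hAD
  obtain ⟨α, hα⟩ : ∃ α : I, Zs W (α, 1) ∉ A := by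
    by_contra hcon
    push Not at hcon
    have h1 : Function.Injective (fun α : I => (⟨Zs W (α, 1), hcon α⟩ : A)) := by
      intro a b hab
      have h2 := Zs_inj P (congrArg Subtype.val hab)
      exact congrArg Prod.fst h2
    have := hAc.to_subtype
    exact not_countable (α := I) (h1.countable)
  apply hnd
  refine ⟨str T, id, isTVN T, ⟨fun _ => rfl, fun _ _ _ => rfl⟩, bet W α, bet_zero α, ?_, inconsistent P α⟩
  rw [Set.image_id]
  exact indisc P α A hAB hα

/-- **The theory of the hyperfinite factor is not simple.** -/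
theorem not_simple (R : Str) (hR : R.IsHyperfinite) : ¬ IsSimpleTheory R := by
  obtain ⟨T, rfl⟩ := exists_tvn R hR.1
  obtain ⟨W, hW⟩ := ps_hyp T (hyp_of T hR)
  exact not_simple_of (ps_model (ℝ × ℕ)) (elemEq (ps_model (ℝ × ℕ)) hW)

end Pool.Agent.R970.SI
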