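import Pool.Agent.R970.SI.Unif
import Pool.Agent.W403.EP.TWA

set_option autoImplicit false

/-! Pauli systems over arbitrary index sets. -/

namespace Pool.Agent.R970.SI

open Pool.Agent.H504R3 (TVN)
open Pool.Agent.H504R3.S
open Pool.Agent.Helper278 hiding sg
open Pool.Agent.W403.EP
open Pool.Agent.Helper436.SM (sg sg_mul_self sg_add)

/-- Pauli strings over `S` -/
abbrev V (S : Type) : Type := S →₀ (ZMod 2 × ZMod 2)

/-- the form -/
def bfS {S : Type} (v w : V S) : ZMod 2 := v.sum fun i a => a.2 * (w i).1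

section form

variable {S : Type}

theorem bfS_add_left (u v w : V S) : bfS (u + v) w = bfS u w + bfS v w := by
  classical
  unfold bfS
  refine Finsupp.sum_add_index' (fun i => ?_) (fun i a b => ?_)
  · simp
  · rw [Prod.snd_add, add_mul]

theorem bfS_add_right (u v w : V S) : bfS u (v + w) = bfS u v + bfS u w := by
  unfold bfS Finsupp.sum
  rw [← Finset.sum_add_distrib]
  refine Finset.sum_congr rfl (fun i _ => ?_)
  show (u i).2 * ((v + w) i).1 = (u i).2 * (v i).1 + (u i).2 * (w i).1
  rw [Finsupp.add_apply, Prod.fst_add, mul_add]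

theorem bfS_zero_left (w : V S) : bfS 0 w = 0 := by
  unfold bfS
  exact Finsupp.sum_zero_index

theorem v_add_self (v : V S) : v + v = 0 := by
  ext i
  · exact CharTwo.add_self_eq_zero _
  · exact CharTwo.add_self_eq_zero _

theorem v_neg (v : V S) : -v = v := neg_eq_of_add_eq_zero_left (v_add_self v)

theorem bfS_map {T : Type} {e : S → T} (he : Function.Injective e) (v w : V S) :
    bfS (v.mapDomain e) (w.mapDomain e) = bfS v w := by
  unfold bfS
  rw [Finsupp.sum_mapDomain_index_inj he]
  unfold Finsupp.sum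
  refine Finset.sum_congr rfl (fun i _ => ?_)
  show (v i).2 * ((Finsupp.mapDomain e w) (e i)).1 = (v i).2 * (w i).1
  rw [Finsupp.mapDomain_apply he]

theorem bfS_single (k l : S) (a b : ZMod 2 × ZMod 2) [Decidable (k = l)] :
    bfS (Finsupp.single k a) (Finsupp.single l b) = if k = l then a.2 * b.1 else 0 := by
  classical
  unfold bfS
  rw [Finsupp.sum_single_index (by simp), Finsupp.single_apply]
  by_cases h : k = l
  · subst h; simp
  · rw [if_neg (Ne.symm h), if_neg h]; simp

end form

/-- the cocycle -/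
noncomputable def bS (S : Type) : Bi (Multiplicative (V S)) where
  b x y := bfS x.toAdd y.toAdd
  left _ _ _ := bfS_add_left _ _ _
  right _ _ _ := bfS_add_right _ _ _

/-- the model -/
noncomputable def MS (S : Type) : TVN := TK (bS S) ((⊤ : Subgroup (Multiplicative (V S))) : Set _)

/-- the Pauli strings of the model -/
noncomputable def WS (S : Type) (v : V S) : (MS S).E := 
  LK (bS S) (Multiplicative.ofAdd v) (Set.mem_univ _)

/-- A Pauli system indexed by `S` which spans a dense subspace. -/
structure PS (T : TVN) (S : Type) (W : V S → T.E) : Prop where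
  zero : W 0 = 1
  mul : ∀ v w, W v * W w = sg (bfS v w) • W (v + w)
  adj : ∀ v, star (W v) = sg (bfS v v) • W v
  tr : ∀ v, v ≠ 0 → T.τ (W v) = 0
  dense : ∀ (x : T.E) (ε : ℝ), 0 < ε → ∃ y ∈ Submodule.span ℂ (Set.range W), T.norm2 (x - y) < ε

theorem ps_model (S : Type) : PS (MS S) S (WS S) where
  zero := LK_one (bS S) _
  mul v w := LK_mul (bS S) (Multiplicative.ofAdd v) (Multiplicative.ofAdd w) (Set.mem_univ _) 
    (Set.mem_univ _) (Set.mem_univ _)
  adj v := by
    have h := star_LK (bS S) (Multiplicative.ofAdd v) 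
      (Set.mem_univ _ : _ ∈ ((⊤ : Subgroup (Multiplicative (V S))) : Set _)) (Set.mem_univ _)
    refine h.trans ?_
    congr 1
    refine Subtype.ext (congrArg (Lo (bS S)) ?_)
    show Multiplicative.ofAdd (-v) = Multiplicative.ofAdd v
    rw [v_neg]
  tr v hv := by
    classical
    have h := tr_LK (bS S) (K := ((⊤ : Subgroup (Multiplicative (V S))) : Set _)) 
      (Multiplicative.ofAdd v) (Set.mem_univ _)
    rw [if_neg (by intro h1; exact hv h1)] at h
    exact h
  dense x ε hε := by
    obtain ⟨y, hy, hxy⟩ := dense_K (bS S) ⊤ (opK (bS S) x) (opK_mem (bS S) x) ε hε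
    have key : ∀ y ∈ Submodule.span ℂ (Lo (bS S) '' ((⊤ : Subgroup (Multiplicative (V S))) : Set _)), 
        ∃ y' ∈ Submodule.span ℂ (Set.range (WS S)), opK (bS S) y' = y := by
      intro y hy
      induction hy using Submodule.span_induction with
      | mem y hy =>
        obtain ⟨g, hg, rfl⟩ := hy
        exact ⟨WS S g.toAdd, Submodule.subset_span ⟨_, rfl⟩, rfl⟩
      | zero => exact ⟨0, zero_mem _, rfl⟩
      | add a b _ _ ha hb =>
        obtain ⟨a', ha, rfl⟩ := ha
        obtain ⟨b', hb, rfl⟩ := hb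
        exact ⟨a' + b', add_mem ha hb, rfl⟩
      | smul c a _ ha =>
        obtain ⟨a', ha, rfl⟩ := ha
        exact ⟨c • a', Submodule.smul_mem _ _ ha, rfl⟩
    obtain ⟨y', hy', rfl⟩ := key y hy
    refine ⟨y', hy', ?_⟩
    have h := TK_norm2 (bS S) (K := ((⊤ : Subgroup (Multiplicative (V S))) : Set _)) (x - y')
    exact h.trans_lt hxy

section basic

variable {T : TVN} {S : Type} {W : V S → T.E} (P : PS T S W)

include P

lemma PS.sg_cancel (v : V S) : star (W v) * W v = 1 := by
  rw [P.adj, smul_mul_assoc, P.mul, smul_smul, sg_mul_self, one_smul, v_add_self, P.zero]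

lemma PS.star_mul (v w : V S) (h : v ≠ w) : T.τ (star (W v) * W w) = 0 := by
  rw [P.adj, smul_mul_assoc, P.mul, map_smul, map_smul, P.tr _ (fun h0 => h ?_), smul_zero, smul_zero]
  rw [← v_neg w]
  exact eq_neg_of_add_eq_zero_left h0

lemma PS.star_mul_self (v : V S) : T.τ (star (W v) * W v) = 1 := by
  rw [P.sg_cancel, T.map_one]

lemma PS.mul_star (v : V S) : W v * star (W v) = 1 := by
  rw [P.adj, mul_smul_comm, P.mul, smul_smul, sg_mul_self, one_smul, v_add_self, P.zero]

lemma PS.norm2_W (v : V S) : T.norm2 (W v) = 1 := by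
  unfold TVN.norm2
  rw [P.star_mul_self]
  simp

end basic

lemma norm2_eq_zero {T : TVN} {x : T.E} (h : T.norm2 x = 0) : x = 0 := by
  apply T.faithful
  have h1 := T.trAlg.eq_sq x
  rw [h1]
  have : n2 T.τ x = 0 := h
  rw [this]
  simp

lemma norm2_sum_le (T : TVN) {κ : Type} (F : Finset κ) (f : κ → T.E) : 
    T.norm2 (∑ i ∈ F, f i) ≤ ∑ i ∈ F, T.norm2 (f i) := by
  classical
  induction F using Finset.induction_on with
  | empty => rw [Finset.sum_empty, Finset.sum_empty, norm2_zero]
  | insert a s ha ih =>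
    rw [Finset.sum_insert ha, Finset.sum_insert ha]
    exact (norm2_add T _ _).trans (by linarith)

section fin

variable {T : TVN} {ι : Type} [Fintype ι] {W : V ι → T.E} (P : PS T ι W)

open Classical in
include P in
/-- expansion, finite index set -/
theorem PS.expand (x : T.E) : x = ∑ v : V ι, T.τ (star (W v) * x) • W v := by
  set Q : T.E →ₗ[ℂ] T.E := ∑ v : V ι, (T.τ.comp (LinearMap.mulLeft ℂ (star (W v)))).smulRight (W v) with hQ
  have hQa : ∀ x, Q x = ∑ v : V ι, T.τ (star (W v) * x) • W v := by
    intro x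
    rw [hQ, LinearMap.sum_apply]
    rfl
  have hQs : ∀ y ∈ Submodule.span ℂ (Set.range W), Q y = y := by
    intro y hy
    induction hy using Submodule.span_induction with
    | mem y hy =>
      obtain ⟨w, rfl⟩ := hy
      rw [hQa, Finset.sum_eq_single w, P.star_mul_self, one_smul]
      · intro v _ hv
        rw [P.star_mul v w hv, zero_smul]
      · intro h
        exact absurd (Finset.mem_univ w) h
    | zero => rw [map_zero]
    | add a b _ _ ha hb => rw [map_add, ha, hb]
    | smul c a _ ha => rw [map_smul, ha]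
  have hQn : ∀ x, T.norm2 (Q x) ≤ Fintype.card (V ι) * T.norm2 x := by
    intro x
    rw [hQa]
    refine (norm2_sum_le T _ _).trans ?_
    have : ∀ v ∈ (Finset.univ : Finset (V ι)), T.norm2 (T.τ (star (W v) * x) • W v) ≤ T.norm2 x := by
      intro v _
      rw [norm2_smul, P.norm2_W, mul_one]
      have h1 := T.trAlg.cauchy (W v) x
      have h2 : n2 T.τ (W v) = 1 := P.norm2_W v
      rw [h2, one_mul] at h1
      exact h1
    refine (Finset.sum_le_sum this).trans ?_
    rw [Finset.sum_const, nsmul_eq_mul, Finset.card_univ]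
  rw [← hQa]
  have h0 : T.norm2 (x - Q x) = 0 := by
    apply le_antisymm _ (norm2_nonneg T _)
    apply le_of_forall_pos_le_add
    intro ε hε
    rw [zero_add]
    set N : ℝ := (Fintype.card (V ι) : ℝ) with hN
    have hN0 : 0 ≤ N := by positivity
    obtain ⟨y, hy, hxy⟩ := P.dense x (ε / (1 + N)) (by positivity)
    have e : x - Q x = (x - y) + (-1 : ℂ) • Q (x - y) := by
      rw [map_sub, hQs y hy, neg_one_smul]
      abel
    rw [e]
    refine (norm2_add T _ _).trans ?_
    rw [norm2_smul, norm_neg, norm_one, one_mul]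
    have h2 := hQn (x - y)
    have h3 : (1 + N) * T.norm2 (x - y) ≤ ε := by
      rw [lt_div_iff₀ (by positivity)] at hxy
      linarith
    linarith
  exact sub_eq_zero.1 (norm2_eq_zero h0)

include P in
theorem PS.span_top : Submodule.span ℂ (Set.range W) = ⊤ := by
  classical
  rw [eq_top_iff]
  intro x _
  rw [P.expand x]
  exact Submodule.sum_mem _ fun v _ => Submodule.smul_mem _ _ (Submodule.subset_span ⟨v, rfl⟩)

end fin

end Pool.Agent.R970.SI
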