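import Pool.Agent.H504R3.SDefs

set_option autoImplicit false

/-!
# Simple theories in the continuous logic of tracial von Neumann algebras

Elementary embeddings, types, indiscernible sequences, dividing and simplicity, for models of the
theory of a given structure. Structures (`Str`), formulas (`Fm`, with values `Fm.val`) and
elementary equivalence are defined in `Pool.Agent.H504R3.SDefs`.
-/

namespace Pool.Agent.R970.SI

open Pool.Agent.H504R3.S

/-- `f` is an elementary embedding: it preserves the sorts (operator norm balls) and the values of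
all formulas. -/
structure IsElemEmb (M N : Str) (f : M.carrier → N.carrier) : Prop where
  nrm : ∀ x, N.nrm (f x) = M.nrm x
  val : ∀ (n : ℕ) (φ : Fm n) (x : Fin n → M.carrier), φ.val N (fun i => f (x i)) = φ.val M x

/-- A function which prescribes the value of every formula `φ(x, b_{s 0}, b_{s 1}, …)` in `m`
variables `x`, with parameters from a family `b` indexed by `ι`. -/
abbrev Ty (m : ℕ) (ι : Type) : Type := (n : ℕ) → Fm (m + n) → (Fin n → ι) → ℝ

/-- The union over `j ∈ J` of the conditions `φ(x, β_j) = p(φ)` is consistent with (the elementary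
diagram of) `N`: every finite set of these conditions is satisfied, up to `ε`, by a tuple `x` of
elements of the given sorts `r`. -/
def Consistent (N : Str) {m : ℕ} (r : Fin m → ℕ) {ι J : Type} (p : Ty m ι) 
    (β : J → ι → N.carrier) : Prop :=
  ∀ ε : ℝ, 0 < ε → ∀ K : Finset (J × (Σ n : ℕ, Fm (m + n) × (Fin n → ι))), 
    ∃ x : Fin m → N.carrier, (∀ i, N.nrm (x i) ≤ r i) ∧ 
      ∀ c ∈ K, |c.2.2.1.val N (Fin.append x (fun l => β c.1 (c.2.2.2 l))) - 
        p c.2.1 c.2.2.1 c.2.2.2| < ε

/-- `p` is a complete type over the set `B` (in `m` variables of the sorts `r`). -/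
def IsType (M : Str) (B : Set M.carrier) {m : ℕ} (r : Fin m → ℕ) (p : Ty m B) : Prop :=
  Consistent M r p (fun (_ : Unit) (b : B) => b.1)

/-- The sequence `β` of tuples indexed by `ι` is indiscernible over `A`: the value of a formula
with parameters from `A` and from finitely many terms of the sequence depends only on the order type
of these terms. -/
def Indiscernible (N : Str) (A : Set N.carrier) {ι : Type} (β : ℕ → ι → N.carrier) : Prop :=
  ∀ (k : ℕ) (i j : Fin k → ℕ), StrictMono i → StrictMono j → 
    ∀ (n : ℕ) (φ : Fm n) (s : Fin n → (Fin k × ι) ⊕ A),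
      φ.val N (fun l => Sum.elim (fun q : Fin k × ι => β (i q.1) q.2) (fun a : A => a.1) (s l)) =
      φ.val N (fun l => Sum.elim (fun q : Fin k × ι => β (j q.1) q.2) (fun a : A => a.1) (s l))

/-- The type `p = p(x, b)` over `B` (`b` is the enumeration of `B`) divides over the subset `A`: in
some elementary extension `N` of `M` there is an `A`-indiscernible sequence `β` with `β 0 = b` such
that the union of the `p(x, β i)` is inconsistent. -/
def Divides (M : Str) (B A : Set M.carrier) {m : ℕ} (r : Fin m → ℕ) (p : Ty m B) : Prop :=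
  ∃ (N : Str) (f : M.carrier → N.carrier), N.IsTVN ∧ IsElemEmb M N f ∧ 
    ∃ β : ℕ → B → N.carrier, (∀ b, β 0 b = f b.1) ∧ Indiscernible N (f '' A) β ∧ 
      ¬ Consistent N r p β

/-- The set `A` is separable for the 2-norm. -/
def SepSet (M : Str) (A : Set M.carrier) : Prop :=
  ∃ D : Set M.carrier, D.Countable ∧ D ⊆ A ∧ 
    ∀ x ∈ A, ∀ ε : ℝ, 0 < ε → ∃ y ∈ D, M.norm2 (M.sub x y) < ε

/-- The complete theory of `R` is simple: every type `p` over a set `B` (in a model `M` of the
theory) does not divide over some separable subset `A` of `B`. -/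
def IsSimpleTheory (R : Str) : Prop :=
  ∀ M : Str, M.IsTVN → M.ElemEq R → ∀ (B : Set M.carrier) (m : ℕ) (r : Fin m → ℕ) (p : Ty m B), 
    IsType M B r p → ∃ A : Set M.carrier, A ⊆ B ∧ SepSet M A ∧ ¬ Divides M B A r p

end Pool.Agent.R970.SI
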